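import Pool.Agent.Lib_MP_debbfb_al.Base

set_option autoImplicit false

/-!
Achievable position differences.
-/

namespace Pool.MP_debbfb_al.Ext

open Module Submodule

section Prod

variable {V W : Type} [AddCommGroup V] [Module K V] [AddCommGroup W] [Module K W]

/-- a product of submodules is equivalent to the product of the modules -/
def prodE (X : Submodule K V) (Y : Submodule K W) : ↥(X.prod Y) ≃ₗ[K] (X × Y) where
  toFun p := (⟨p.1.1, p.2.1⟩, ⟨p.1.2, p.2.2⟩)
  invFun q := ⟨(q.1.1, q.2.1), ⟨q.1.2, q.2.2⟩⟩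
  map_add' _ _ := rfl
  map_smul' _ _ := rfl
  left_inv _ := rfl
  right_inv _ := rfl

theorem finrank_prod_sub [Finite V] [Finite W] (X : Submodule K V) (Y : Submodule K W) :
    finrank K ↥(X.prod Y) = finrank K X + finrank K Y := by
  rw [LinearEquiv.finrank_eq (prodE X Y), Module.finrank_prod]

theorem dl_prod [Finite V] [Finite W] (g : V ≃ₗ[K] V) (h : W ≃ₗ[K] W) (X Y : Submodule K V)
    (X' Y' : Submodule K W) :
    dl (g.prodCongr h) (X.prod X') (Y.prod Y') = dl g X Y + dl h X' Y' := by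
  unfold dl
  have e : ((g.prodCongr h : (V × W) ≃ₗ[K] (V × W)) : (V × W) →ₗ[K] (V × W)) =
      LinearMap.prodMap (g : V →ₗ[K] V) (h : W →ₗ[K] W) := rfl
  rw [e, LinearMap.prodMap_map_prod, Submodule.prod_inf_prod, Submodule.prod_inf_prod,
    finrank_prod_sub, finrank_prod_sub]
  push_cast
  ring

variable {G : Type} [Group G]

/-- product of two representations -/
def prodRep (ρ : G →* (V ≃ₗ[K] V)) (σ : G →* (W ≃ₗ[K] W)) : G →* ((V × W) ≃ₗ[K] (V × W)) where
  toFun g := (ρ g).prodCongr (σ g)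
  map_one' := by
    ext v <;> simp
  map_mul' a b := by
    ext v <;> simp

theorem filt_prod {ρ : G →* (V ≃ₗ[K] V)} {σ : G →* (W ≃ₗ[K] W)} {A : Subgroup G}
    {F : ℕ → Submodule K V} {F' : ℕ → Submodule K W} (h : Filt ρ A F) (h' : Filt σ A F') :
    Filt (prodRep ρ σ) A (fun s => (F s).prod (F' s)) := by
  refine ⟨?_, ?_, ?_, ?_⟩
  · intro s t hst
    exact Submodule.prod_mono (h.mono hst) (h'.mono hst)
  · show (F 0).prod (F' 0) = ⊥
    rw [h.zero, h'.zero, Submodule.prod_bot]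
  · obtain ⟨p, hp⟩ := h.top
    obtain ⟨q, hq⟩ := h'.top
    refine ⟨max p q, ?_⟩
    have h1 : F (max p q) = ⊤ := top_le_iff.mp (hp ▸ h.mono (le_max_left p q))
    have h2 : F' (max p q) = ⊤ := top_le_iff.mp (hq ▸ h'.mono (le_max_right p q))
    show (F (max p q)).prod (F' (max p q)) = ⊤
    rw [h1, h2, Submodule.prod_top]
  · intro a ha s v hv
    exact ⟨h.triv a ha s v.1 hv.1, h'.triv a ha s v.2 hv.2⟩

end Prod

variable {G : Type} [Group G]

/-- `δ` is the position difference of a pair of filtrations of a faithful module -/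
def Ach (A B : Subgroup G) (g : G) (δ : ℕ → ℕ → ℤ) : Prop :=
  ∃ (V : Type) (_ : AddCommGroup V) (_ : Module K V) (_ : Finite V) (ρ : G →* (V ≃ₗ[K] V))
    (F Y : ℕ → Submodule K V), Function.Injective ρ ∧ Filt ρ A F ∧ Filt ρ B Y ∧
    ∀ s t, δ s t = dl (ρ g) (F s) (Y t)

theorem Ach.add {A B : Subgroup G} {g : G} {δ δ' : ℕ → ℕ → ℤ} (h : Ach A B g δ)
    (h' : Ach A B g δ') : Ach A B g (fun s t => δ s t + δ' s t) := by
  obtain ⟨V, _, _, _, ρ, F, Y, hρ, hF, hY, hd⟩ := h
  obtain ⟨W, _, _, _, σ, F', Y', hσ, hF', hY', hd'⟩ := h'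
  refine ⟨V × W, inferInstance, inferInstance, inferInstance, prodRep ρ σ,
    fun s => (F s).prod (F' s), fun s => (Y s).prod (Y' s), ?_, filt_prod hF hF',
    filt_prod hY hY', ?_⟩
  · intro a b hab
    apply hρ
    ext v
    have := congrArg (fun e : (V × W) ≃ₗ[K] (V × W) => (e (v, 0)).1) hab
    exact this
  · intro s t
    show δ s t + δ' s t = dl ((ρ g).prodCongr (σ g)) _ _
    rw [dl_prod, hd, hd']

theorem filt_shift {V : Type} [AddCommGroup V] [Module K V] {ρ : G →* (V ≃ₗ[K] V)}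
    {A : Subgroup G} {F : ℕ → Submodule K V} (h : Filt ρ A F) (a : ℕ) :
    Filt ρ A (fun s => F (s - a)) := by
  refine ⟨fun s t hst => h.mono (by omega), by simpa using h.zero, ?_, ?_⟩
  · obtain ⟨p, hp⟩ := h.top
    exact ⟨p + a, by simpa using hp⟩
  · intro x hx s v hv
    rcases Nat.lt_or_ge s a with h1 | h1
    · have e : s + 1 - a = 0 := by omega
      have hv' : v ∈ F (s + 1 - a) := hv
      rw [e, h.zero, Submodule.mem_bot] at hv'
      rw [hv', map_zero, sub_zero]; exact zero_mem _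
    · have e : s + 1 - a = (s - a) + 1 := by omega
      have hv' : v ∈ F (s + 1 - a) := hv
      rw [e] at hv'
      exact h.triv x hx _ v hv'

theorem Ach.shift {A B : Subgroup G} {g : G} {δ : ℕ → ℕ → ℤ} (h : Ach A B g δ) (a b : ℕ) :
    Ach A B g (fun s t => δ (s - a) (t - b)) := by
  obtain ⟨V, _, _, _, ρ, F, Y, hρ, hF, hY, hd⟩ := h
  exact ⟨V, inferInstance, inferInstance, inferInstance, ρ, fun s => F (s - a),
    fun s => Y (s - b), hρ, filt_shift hF a, filt_shift hY b, fun s t => hd _ _⟩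

theorem Ach.swap {A B : Subgroup G} {g : G} {δ : ℕ → ℕ → ℤ} (h : Ach B A g⁻¹ δ) :
    Ach A B g (fun s t => δ t s) := by
  obtain ⟨V, _, _, _, ρ, F, Y, hρ, hF, hY, hd⟩ := h
  refine ⟨V, inferInstance, inferInstance, inferInstance, ρ, Y, F, hρ, hY, hF, ?_⟩
  intro s t
  show δ t s = _
  rw [hd, map_inv, dl_swap]

theorem Ach.bot_left {A B : Subgroup G} {g : G} {δ : ℕ → ℕ → ℤ} (h : Ach A B g δ) (t : ℕ) :
    δ 0 t = 0 := by
  obtain ⟨V, _, _, _, ρ, F, Y, hρ, hF, hY, hd⟩ := h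
  rw [hd, hF.zero]; unfold dl; rw [bot_inf_eq, bot_inf_eq, sub_self]

theorem Ach.bot_right {A B : Subgroup G} {g : G} {δ : ℕ → ℕ → ℤ} (h : Ach A B g δ) (s : ℕ) :
    δ s 0 = 0 := by
  obtain ⟨V, _, _, _, ρ, F, Y, hρ, hF, hY, hd⟩ := h
  rw [hd, hY.zero]; unfold dl; rw [Submodule.map_bot, inf_bot_eq, sub_self]

theorem Ach.sum {A B : Subgroup G} {g : G} {ι : Type} (S : Finset ι) (hS : S.Nonempty)
    (δ : ι → ℕ → ℕ → ℤ) (h : ∀ i ∈ S, Ach A B g (δ i)) :
    Ach A B g (fun s t => ∑ i ∈ S, δ i s t) := by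
  classical
  induction hS using Finset.Nonempty.cons_induction with
  | singleton i =>
    have := h i (Finset.mem_singleton_self i)
    simpa using this
  | cons i S hi hS ih =>
    have h1 := h i (Finset.mem_cons_self i S)
    have h2 := ih (fun j hj => h j (Finset.mem_cons_of_mem hj))
    have h3 := h1.add h2
    have e : (fun s t => ∑ j ∈ Finset.cons i S hi, δ j s t) =
        fun s t => δ i s t + ∑ j ∈ S, δ j s t := by
      funext s t; rw [Finset.sum_cons]
    rw [e]; exact h3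

theorem Ach.nsmul {A B : Subgroup G} {g : G} {δ : ℕ → ℕ → ℤ} (h : Ach A B g δ) (n : ℕ)
    (hn : 0 < n) : Ach A B g (fun s t => (n : ℤ) * δ s t) := by
  have := Ach.sum (Finset.range n) ⟨0, Finset.mem_range.mpr hn⟩ (fun _ => δ) (fun _ _ => h)
  simpa using this

end Pool.MP_debbfb_al.Ext
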