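import Pool.Agent.Lib_MP_debbfb_al.Filt

set_option autoImplicit false

/-!
Fixed points of 2-groups and the standard filtration through an invariant subspace.
-/

namespace Pool.MP_debbfb_al.Ext

open Module Submodule

section Base

variable {V : Type} [AddCommGroup V] [Module K V]
variable {G : Type} [Group G]

/-- invariance of a subspace -/
def Stable (ρ : G →* (V ≃ₗ[K] V)) (A : Subgroup G) (Z : Submodule K V) : Prop :=
  ∀ a ∈ A, ∀ v ∈ Z, ρ a v ∈ Z

/-- the vectors fixed modulo `Z` -/
def T (ρ : G →* (V ≃ₗ[K] V)) (A : Subgroup G) (Z : Submodule K V) : Submodule K V where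
  carrier := {v | ∀ a ∈ A, ρ a v - v ∈ Z}
  add_mem' := by
    intro v w hv hw a ha
    have : ρ a (v + w) - (v + w) = (ρ a v - v) + (ρ a w - w) := by rw [map_add]; abel
    rw [this]; exact add_mem (hv a ha) (hw a ha)
  zero_mem' := by
    intro a _; rw [map_zero, sub_zero]; exact zero_mem _
  smul_mem' := by
    intro c v hv a ha
    rw [map_smul, ← smul_sub]; exact smul_mem _ _ (hv a ha)

theorem mem_T {ρ : G →* (V ≃ₗ[K] V)} {A : Subgroup G} {Z : Submodule K V} {v : V} :
    v ∈ T ρ A Z ↔ ∀ a ∈ A, ρ a v - v ∈ Z := Iff.rfl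

theorem T_mono (ρ : G →* (V ≃ₗ[K] V)) (A : Subgroup G) : Monotone (T ρ A) := by
  intro Z W h v hv a ha
  exact h (hv a ha)

theorem le_T {ρ : G →* (V ≃ₗ[K] V)} {A : Subgroup G} {Z : Submodule K V} (h : Stable ρ A Z) :
    Z ≤ T ρ A Z := fun v hv a ha => sub_mem (h a ha v hv) hv

theorem stable_T {ρ : G →* (V ≃ₗ[K] V)} {A : Subgroup G} {Z : Submodule K V}
    (h : Stable ρ A Z) : Stable ρ A (T ρ A Z) := by
  intro a ha v hv
  have h1 : ρ a v = (ρ a v - v) + v := by abel
  rw [h1]
  exact add_mem (le_T h (hv a ha)) hv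

theorem stable_iter {ρ : G →* (V ≃ₗ[K] V)} {A : Subgroup G} {Z : Submodule K V}
    (h : Stable ρ A Z) (n : ℕ) : Stable ρ A ((T ρ A)^[n] Z) := by
  induction n with
  | zero => exact h
  | succ n ih => rw [Function.iterate_succ_apply']; exact stable_T ih

theorem iter_mono {ρ : G →* (V ≃ₗ[K] V)} {A : Subgroup G} {Z : Submodule K V}
    (h : Stable ρ A Z) : Monotone (fun n => (T ρ A)^[n] Z) := by
  apply monotone_nat_of_le_succ
  intro n
  show _ ≤ (T ρ A)^[n+1] Z
  rw [Function.iterate_succ_apply']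
  exact le_T (stable_iter h n)

variable [Finite V]

/-- a 2-group acting on a proper invariant subspace fixes something modulo it -/
theorem exists_fixed_mod (ρ : G →* (V ≃ₗ[K] V)) (A : Subgroup G) (hA : IsPGroup 2 A)
    (Z : Submodule K V) (hZ : Stable ρ A Z) (hne : Z ≠ ⊤) : ∃ v, v ∉ Z ∧ v ∈ T ρ A Z := by
  classical
  have hst : ∀ a : A, Z ≤ Z.comap ((ρ a : V ≃ₗ[K] V) : V →ₗ[K] V) := by
    intro a v hv
    exact hZ a a.2 v hv
  let act : MulAction A (V ⧸ Z) :=
    { smul := fun a q => Z.mapQ Z ((ρ a : V ≃ₗ[K] V) : V →ₗ[K] V) (hst a) q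
      one_smul := by
        intro q
        induction q using Submodule.Quotient.induction_on with
        | _ v =>
          show Z.mapQ Z ((ρ (1 : A) : V ≃ₗ[K] V) : V →ₗ[K] V) (hst 1) (Submodule.Quotient.mk v) = _
          rw [Submodule.mapQ_apply]
          have : (ρ ((1 : A) : G)) v = v := by
            rw [OneMemClass.coe_one, map_one]; rfl
          exact congrArg _ this
      mul_smul := by
        intro a b q
        induction q using Submodule.Quotient.induction_on with
        | _ v =>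
          show Z.mapQ Z ((ρ (a * b : A) : V ≃ₗ[K] V) : V →ₗ[K] V) (hst _) (Submodule.Quotient.mk v) =
            Z.mapQ Z ((ρ (a : A) : V ≃ₗ[K] V) : V →ₗ[K] V) (hst a)
              (Z.mapQ Z ((ρ (b : A) : V ≃ₗ[K] V) : V →ₗ[K] V) (hst b) (Submodule.Quotient.mk v))
          rw [Submodule.mapQ_apply, Submodule.mapQ_apply, Submodule.mapQ_apply]
          have : (ρ ((a * b : A) : G)) v = (ρ (a : G)) ((ρ (b : G)) v) := by
            rw [Subgroup.coe_mul, map_mul]; rfl
          exact congrArg _ this }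
  have hsm : ∀ (a : A) (v : V), a • (Submodule.Quotient.mk v : V ⧸ Z) = Submodule.Quotient.mk (ρ a v) := by
    intro a v; rfl
  have hnt : Nontrivial (V ⧸ Z) := Submodule.Quotient.nontrivial_iff.mpr hne
  have hdvd : 2 ∣ Nat.card (V ⧸ Z) := by
    obtain ⟨q, hq⟩ := exists_ne (0 : V ⧸ Z)
    have h2 : addOrderOf q = 2 := by
      apply addOrderOf_eq_prime
      · induction q using Submodule.Quotient.induction_on with
        | _ v =>
          rw [two_nsmul, ← Submodule.Quotient.mk_add, vadd_self]; rfl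
      · exact hq
    have h3 := addOrderOf_dvd_natCard q
    rw [h2] at h3
    exact h3
  have hfinq : Finite (V ⧸ Z) := Finite.of_surjective _ (Submodule.mkQ_surjective Z)
  have hfix0 : (0 : V ⧸ Z) ∈ MulAction.fixedPoints A (V ⧸ Z) := by
    intro a
    have : (0 : V ⧸ Z) = Submodule.Quotient.mk 0 := rfl
    rw [this, hsm, map_zero]
  obtain ⟨b, hb, hb0⟩ := hA.exists_fixed_point_of_prime_dvd_card_of_fixed_point (V ⧸ Z) hdvd hfix0
  induction b using Submodule.Quotient.induction_on with
  | _ v =>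
    refine ⟨v, ?_, ?_⟩
    · intro hv
      apply hb0
      exact ((Submodule.Quotient.mk_eq_zero Z).mpr hv).symm
    · intro a ha
      have := hb ⟨a, ha⟩
      rw [hsm] at this
      exact (Submodule.Quotient.eq Z).mp this

theorem iter_top (ρ : G →* (V ≃ₗ[K] V)) (A : Subgroup G) (hA : IsPGroup 2 A)
    (Z : Submodule K V) (hZ : Stable ρ A Z) (n : ℕ) (hn : finrank K V ≤ n) :
    (T ρ A)^[n] Z = ⊤ := by
  have key : ∀ n, (T ρ A)^[n] Z = ⊤ ∨ n ≤ finrank K ↥((T ρ A)^[n] Z) := by
    intro n
    induction n with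
    | zero => right; exact Nat.zero_le _
    | succ n ih =>
      by_cases htop : (T ρ A)^[n] Z = ⊤
      · left
        have := iter_mono hZ (Nat.le_succ n)
        simp only at this
        rw [htop] at this
        exact top_le_iff.mp this
      · rcases ih with h | h
        · exact absurd h htop
        · right
          obtain ⟨v, hv, hvT⟩ := exists_fixed_mod ρ A hA _ (stable_iter hZ n) htop
          have hlt : (T ρ A)^[n] Z < (T ρ A)^[n+1] Z := by
            refine lt_of_le_of_ne (iter_mono hZ (Nat.le_succ n)) ?_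
            intro he
            apply hv
            rw [he, Function.iterate_succ_apply']
            exact hvT
          have := finrank_lt_finrank_of_lt hlt
          omega
  rcases key n with h | h
  · exact h
  · apply Submodule.eq_top_of_finrank_eq
    have := Submodule.finrank_le ((T ρ A)^[n] Z)
    omega

/-- filtration through `X`: reaches `X` during the labels `(a, a+N]`, stays there until `b` and
then goes up to the top -/
noncomputable def Fil (ρ : G →* (V ≃ₗ[K] V)) (A : Subgroup G) (X : Submodule K V) (a b : ℕ) :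
    ℕ → Submodule K V := by
  classical
  exact fun s => if s ≤ b then X ⊓ (T ρ A)^[s - a] ⊥ else (T ρ A)^[s - b] X

variable (ρ : G →* (V ≃ₗ[K] V)) (A : Subgroup G) (X : Submodule K V) (a b : ℕ)

omit [Finite V] in
theorem Fil_le {s : ℕ} (h : s ≤ b) : Fil ρ A X a b s = X ⊓ (T ρ A)^[s - a] ⊥ := by
  classical
  unfold Fil; simp [h]

omit [Finite V] in
theorem Fil_gt {s : ℕ} (h : b < s) : Fil ρ A X a b s = (T ρ A)^[s - b] X := by
  classical
  have : ¬ s ≤ b := by omega
  unfold Fil; simp [this]

omit [Finite V] in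
theorem Fil_bot {s : ℕ} (hab : a ≤ b) (h : s ≤ a) : Fil ρ A X a b s = ⊥ := by
  rw [Fil_le ρ A X a b (h.trans hab)]
  have : s - a = 0 := by omega
  rw [this]; simp

omit [Finite V] in
theorem stable_bot : Stable ρ A (⊥ : Submodule K V) := by
  intro a _ v hv
  rw [Submodule.mem_bot] at hv
  rw [hv, map_zero]; exact zero_mem _

theorem Fil_mid (hA : IsPGroup 2 A) {s : ℕ} (h1 : a + finrank K V ≤ s) (h2 : s ≤ b) :
    Fil ρ A X a b s = X := by
  rw [Fil_le ρ A X a b h2, iter_top ρ A hA ⊥ (stable_bot ρ A) _ (by omega), inf_top_eq]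

theorem Fil_top (hA : IsPGroup 2 A) (hX : Stable ρ A X) {s : ℕ} (h1 : b + finrank K V ≤ s)
    (h0 : 0 < finrank K V) : Fil ρ A X a b s = ⊤ := by
  rw [Fil_gt ρ A X a b (by omega), iter_top ρ A hA X hX _ (by omega)]

omit [Finite V] in
theorem Fil_le_X {s : ℕ} (h : s ≤ b) : Fil ρ A X a b s ≤ X := by
  rw [Fil_le ρ A X a b h]; exact inf_le_left

omit [Finite V] in
theorem X_le_Fil (hX : Stable ρ A X) {s : ℕ} (h : b < s) : X ≤ Fil ρ A X a b s := by
  rw [Fil_gt ρ A X a b h]
  exact iter_mono hX (Nat.zero_le (s - b))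

theorem Fil_Filt (hA : IsPGroup 2 A) (hX : Stable ρ A X) (hab : a + finrank K V ≤ b)
    (h0 : 0 < finrank K V) : Filt ρ A (Fil ρ A X a b) := by
  have hb := stable_bot ρ A
  refine ⟨?_, Fil_bot ρ A X a b (by omega) (Nat.zero_le _),
    ⟨b + finrank K V, Fil_top ρ A X a b hA hX le_rfl h0⟩, ?_⟩
  · apply monotone_nat_of_le_succ
    intro s
    rcases Nat.lt_or_ge s b with h | h
    · rw [Fil_le ρ A X a b h.le, Fil_le ρ A X a b (show s + 1 ≤ b from h)]
      exact inf_le_inf_left _ (iter_mono hb (by omega : s - a ≤ s + 1 - a))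
    · rcases Nat.eq_or_lt_of_le h with h' | h'
      · rw [← h']
        exact (Fil_le_X ρ A X a b le_rfl).trans (X_le_Fil ρ A X a b hX (Nat.lt_succ_self b))
      · rw [Fil_gt ρ A X a b h', Fil_gt ρ A X a b (by omega : b < s + 1)]
        exact iter_mono hX (by omega : s - b ≤ s + 1 - b)
  · intro g hg s v hv
    rcases Nat.lt_or_ge s b with h | h
    · rw [Fil_le ρ A X a b h.le]
      rw [Fil_le ρ A X a b (show s + 1 ≤ b from h)] at hv
      refine ⟨sub_mem (hX g hg v hv.1) hv.1, ?_⟩
      rcases Nat.lt_or_ge s a with h2 | h2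
      · have e : s + 1 - a = 0 := by omega
        have hv2 := hv.2
        rw [e] at hv2
        have hv3 : v = 0 := hv2
        rw [hv3, map_zero, sub_zero]; exact zero_mem _
      · have e : s + 1 - a = (s - a) + 1 := by omega
        have hv2 := hv.2
        rw [e, Function.iterate_succ_apply'] at hv2
        exact hv2 g hg
    · rw [Fil_gt ρ A X a b (by omega : b < s + 1)] at hv
      have e : s + 1 - b = (s - b) + 1 := by omega
      rw [e, Function.iterate_succ_apply'] at hv
      have h3 := hv g hg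
      rcases Nat.eq_or_lt_of_le h with h' | h'
      · rw [← h', Fil_mid ρ A X a b hA hab le_rfl]
        rw [← h', Nat.sub_self] at h3
        exact h3
      · rw [Fil_gt ρ A X a b h']; exact h3

end Base

end Pool.MP_debbfb_al.Ext
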