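import Pool.Agent.Lib_MP_debbfb_al.Reg

set_option autoImplicit false

/-!
The composite objects and the extension step.
-/

namespace Pool.MP_debbfb_al.Ext

open Module Submodule

variable {G : Type} [Group G]

/-- interior strip indicator -/
def Int' (n N s : ℕ) : Prop := 1 ≤ s / N ∧ s / N ≤ n - 2

instance (n N s : ℕ) : Decidable (Int' n N s) := by unfold Int'; infer_instance

theorem exists_E [Finite G] (A B : Subgroup G) (hA : IsPGroup 2 A) (hB : IsPGroup 2 B) (g : G)
    (hg : g ∉ AB A B) (n N : ℕ) (hn : 3 ≤ n) (hNe : N = finrank K (G → K)) :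
    ∃ E : ℕ → ℕ → ℤ, Ach A B g E ∧
      (∀ s t, s = 0 ∨ t = 0 ∨ n * N ≤ s ∨ n * N ≤ t → E s t = 0) ∧
      (∀ s t, 1 ≤ t → t < n * N →
        (if Int' n N s then (n : ℤ) - 2 else 0) -
          (if Int' n N t then 2 * (N : ℤ) + (if Int' n N s then 1 else 0) else 0) ≤ E s t) := by
  classical
  have hN : 0 < N := by rw [hNe]; exact finrank_pos
  have hk1 : ∀ k ∈ Finset.Icc 1 (n - 2), ∃ δ : ℕ → ℕ → ℤ, Ach A B g δ ∧
      (∀ s t, n * N ≤ s ∨ n * N ≤ t → δ s t = 0) ∧
      (∀ s t, 1 ≤ t → t < n * N →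
        (if k = t / N then -(2 * (N : ℤ)) else (if Int' n N s then 1 else 0)) ≤ δ s t) := by
    intro k hk
    rw [Finset.mem_Icc] at hk
    obtain ⟨m, rfl⟩ : ∃ m, n = m + 3 := ⟨n - 3, by omega⟩
    have e1 : (m + 3) * N = m * N + 3 * N := by ring
    have hkN : k * N + N ≤ (m + 2) * N := by
      have : (k + 1) * N ≤ (m + 2) * N := Nat.mul_le_mul_right N (by omega)
      calc k * N + N = (k + 1) * N := by ring
        _ ≤ _ := this
    have hkN1 : N ≤ k * N := Nat.le_mul_of_pos_left N hk.1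
    have e2 : (m + 2) * N = m * N + 2 * N := by ring
    obtain ⟨L, hL, L1, L2, L3, L4, L5⟩ := baseL A B hA hB g hg ((m + 2) * N) (k * N)
      (by rw [← hNe]; omega) (by rw [← hNe]; exact hkN1)
    obtain ⟨R, hR, R1, R2, R3, R4, R5, R6⟩ := baseR A B hA hB g hg ((m + 2) * N) (k * N)
      ((m + 3) * N - 1) (by rw [← hNe]; omega) (by rw [← hNe]; omega)
    rw [← hNe] at L1 L3 L4 L5 R1 R3 R4 R6
    refine ⟨fun s t => L s t + R s t, hL.add hR, ?_, ?_⟩
    · rintro s t (h | h)
      · show L s t + R s t = 0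
        rw [L5 s t (by omega), R6 s t (by omega)]; norm_num
      · show L s t + R s t = 0
        rw [L4 s t (by omega), R5 s t (by omega)]; norm_num
    · intro s t h1 h2
      show _ ≤ L s t + R s t
      by_cases hkt : k = t / N
      · rw [if_pos hkt]
        have a := L1 s t
        have b := R1 s t
        omega
      · rw [if_neg hkt]
        have hsI : Int' (m + 3) N s → N ≤ s ∧ s ≤ (m + 2) * N := by
          rintro ⟨h3, h4⟩
          constructor
          · have := (Nat.le_div_iff_mul_le hN).mp h3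
            omega
          · have : s / N < m + 2 := by omega
            have := (Nat.div_lt_iff_lt_mul hN).mp this
            omega
        rcases Nat.lt_or_gt_of_ne hkt with h | h
        · -- k < t / N
          have h3 : (k + 1) * N ≤ t := (Nat.le_div_iff_mul_le hN).mp h
          have h4 : k * N + N ≤ t := by
            calc k * N + N = (k + 1) * N := by ring
              _ ≤ t := h3
          have a := L4 s t h4
          have b := R3 s t h4
          by_cases hs : Int' (m + 3) N s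
          · rw [if_pos hs]
            have c := R4 s t (hsI hs).1 (hsI hs).2 h4 (by omega)
            omega
          · rw [if_neg hs]; omega
        · have h3 : t < k * N := (Nat.div_lt_iff_lt_mul hN).mp h
          have a := R2 s t h3.le
          have b := L2 s t h3.le
          by_cases hs : Int' (m + 3) N s
          · rw [if_pos hs]
            have c := L3 s t (hsI hs).1 (hsI hs).2 h1 h3.le
            omega
          · rw [if_neg hs]; omega
  choose! δ hδ using hk1
  have hne : (Finset.Icc 1 (n - 2)).Nonempty := ⟨1, by rw [Finset.mem_Icc]; omega⟩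
  refine ⟨fun s t => ∑ k ∈ Finset.Icc 1 (n - 2), δ k s t,
    Ach.sum _ hne δ (fun k hk => (hδ k hk).1), ?_, ?_⟩
  · intro s t h
    apply Finset.sum_eq_zero
    intro k hk
    rcases h with h | h | h | h
    · subst h; exact (hδ k hk).1.bot_left t
    · subst h; exact (hδ k hk).1.bot_right s
    · exact (hδ k hk).2.1 s t (Or.inl h)
    · exact (hδ k hk).2.1 s t (Or.inr h)
  · intro s t h1 h2
    set cs : ℤ := if Int' n N s then 1 else 0 with hcs
    have hsum : ∑ k ∈ Finset.Icc 1 (n - 2), (if k = t / N then -(2 * (N : ℤ)) else cs) ≤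
        ∑ k ∈ Finset.Icc 1 (n - 2), δ k s t :=
      Finset.sum_le_sum (fun k hk => (hδ k hk).2.2 s t h1 h2)
    refine le_trans ?_ hsum
    have hre : ∀ k, (if k = t / N then -(2 * (N : ℤ)) else cs) =
        cs + (if k = t / N then -(2 * (N : ℤ)) - cs else 0) := by
      intro k
      split_ifs <;> ring
    rw [Finset.sum_congr rfl (fun k _ => hre k), Finset.sum_add_distrib, Finset.sum_const,
      Finset.sum_ite_eq', Nat.card_Icc]
    have hmem : (t / N ∈ Finset.Icc 1 (n - 2)) ↔ Int' n N t := by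
      rw [Finset.mem_Icc]; rfl
    have hcard : ((n - 2 + 1 - 1 : ℕ) : ℤ) = (n : ℤ) - 2 := by omega
    rw [nsmul_eq_mul, hcard]
    by_cases hs : Int' n N s
    · have : cs = 1 := by rw [hcs, if_pos hs]
      rw [this, if_pos hs]
      by_cases ht : Int' n N t
      · rw [if_pos ht, if_pos (hmem.mpr ht)]; linarith
      · rw [if_neg ht, if_neg (fun h => ht (hmem.mp h))]; linarith
    · have : cs = 0 := by rw [hcs, if_neg hs]
      rw [this, if_neg hs]
      by_cases ht : Int' n N t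
      · rw [if_pos ht, if_pos (hmem.mpr ht)]; linarith
      · rw [if_neg ht, if_neg (fun h => ht (hmem.mp h))]; linarith

theorem AB_inv {A B : Subgroup G} {g : G} (hg : g ∉ AB A B) : g⁻¹ ∉ AB B A := by
  rintro ⟨b, hb, a, ha, h⟩
  apply hg
  refine ⟨a⁻¹, inv_mem ha, b⁻¹, inv_mem hb, ?_⟩
  rw [← mul_inv_rev, h, inv_inv]

theorem exists_P [Finite G] (A B : Subgroup G) (hA : IsPGroup 2 A) (hB : IsPGroup 2 B) (g : G)
    (hg : g ∉ AB A B) :
    ∃ (P : ℕ → ℕ → ℤ) (M : ℕ), Ach A B g P ∧ (∀ s t, 0 ≤ P s t) ∧ (∃ s t, 0 < P s t) ∧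
      (∀ s t, M ≤ s ∨ M ≤ t → P s t = 0) := by
  classical
  set N := finrank K (G → K) with hN
  have hN0 : 0 < N := finrank_pos
  set n := 2 * N + 3 with hn
  obtain ⟨E, hE, E1, E2⟩ := exists_E A B hA hB g hg n N (by omega) hN
  obtain ⟨E', hE', E1', E2'⟩ := exists_E B A hB hA g⁻¹ (AB_inv hg) n N (by omega) hN
  have hnn : (n : ℤ) = 2 * N + 3 := by rw [hn]; push_cast; ring
  have hsw : Ach A B g (fun s t => E' t s) := hE'.swap
  refine ⟨fun s t => E s t + E' t s, n * N, hE.add hsw, ?_, ?_, ?_⟩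
  · intro s t
    show 0 ≤ E s t + E' t s
    by_cases h : s = 0 ∨ t = 0 ∨ n * N ≤ s ∨ n * N ≤ t
    · rw [E1 s t h, E1' t s (by tauto)]; norm_num
    · push Not at h
      have a := E2 s t (by omega) h.2.2.2
      have b := E2' t s (by omega) h.2.2.1
      by_cases hs : Int' n N s <;> by_cases ht : Int' n N t
      · simp only [if_pos hs, if_pos ht] at a b; linarith
      · simp only [if_pos hs, if_neg ht] at a b; linarith
      · simp only [if_neg hs, if_pos ht] at a b; linarith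
      · simp only [if_neg hs, if_neg ht] at a b; linarith
  · have hs : Int' n N N := by
      unfold Int'
      rw [Nat.div_self hN0]; omega
    have hdiv : (n - 1) * N / N = n - 1 := Nat.mul_div_cancel _ hN0
    have ht : ¬ Int' n N ((n - 1) * N) := by
      unfold Int'
      rw [hdiv]; omega
    refine ⟨N, (n - 1) * N, ?_⟩
    show 0 < E N ((n - 1) * N) + E' ((n - 1) * N) N
    have h1 : 1 ≤ (n - 1) * N := Nat.mul_pos (by omega) hN0
    have h2 : (n - 1) * N < n * N := Nat.mul_lt_mul_of_pos_right (by omega) hN0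
    have h3 : N < n * N := by
      calc N = 1 * N := (one_mul N).symm
        _ < n * N := Nat.mul_lt_mul_of_pos_right (by omega) hN0
    have a := E2 N ((n - 1) * N) h1 h2
    have b := E2' ((n - 1) * N) N hN0 h3
    simp only [if_pos hs, if_neg ht] at a b
    linarith
  · intro s t h
    show E s t + E' t s = 0
    rw [E1 s t (by tauto), E1' t s (by tauto)]; norm_num

theorem Ach.conj {A B : Subgroup G} {g : G} {δ : ℕ → ℕ → ℤ}
    (h : Ach A (B.map (MulAut.conj g).toMonoidHom) g⁻¹ δ) : Ach A B g (fun s t => - δ s t) := by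
  obtain ⟨V, _, _, _, ρ, F, Y, hρ, hF, hY, hd⟩ := h
  have hcomp : ∀ W : Submodule K V, (W.map ((ρ g⁻¹ : V ≃ₗ[K] V) : V →ₗ[K] V)).map
      ((ρ g : V ≃ₗ[K] V) : V →ₗ[K] V) = W := by
    intro W
    rw [← Submodule.map_comp]
    have : ((ρ g : V ≃ₗ[K] V) : V →ₗ[K] V) ∘ₗ ((ρ g⁻¹ : V ≃ₗ[K] V) : V →ₗ[K] V)
        = LinearMap.id := by
      ext v
      show ρ g (ρ g⁻¹ v) = v
      have : (ρ g * ρ g⁻¹) v = v := by rw [← map_mul, mul_inv_cancel, map_one]; rfl
      exact this
    rw [this, Submodule.map_id]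
  refine ⟨V, inferInstance, inferInstance, inferInstance, ρ, F,
    fun t => (Y t).map ((ρ g⁻¹ : V ≃ₗ[K] V) : V →ₗ[K] V), hρ, hF, ⟨?_, ?_, ?_, ?_⟩, ?_⟩
  · intro s t hst
    exact Submodule.map_mono (hY.mono hst)
  · show (Y 0).map _ = ⊥
    rw [hY.zero, Submodule.map_bot]
  · obtain ⟨p, hp⟩ := hY.top
    refine ⟨p, ?_⟩
    show (Y p).map _ = ⊤
    rw [hp, Submodule.map_top, LinearMap.range_eq_top]
    exact (ρ g⁻¹).surjective
  · rintro b hb s _ ⟨w, hw, rfl⟩
    have h1 := hY.triv (g * b * g⁻¹) ⟨b, hb, rfl⟩ s w hw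
    refine ⟨_, h1, ?_⟩
    show ρ g⁻¹ (ρ (g * b * g⁻¹) w - w) = ρ b (ρ g⁻¹ w) - ρ g⁻¹ w
    rw [map_sub]
    congr 1
    have : (ρ g⁻¹ * ρ (g * b * g⁻¹)) w = (ρ b * ρ g⁻¹) w := by
      rw [← map_mul, ← map_mul]; congr 2; group
    exact this
  · intro s t
    show - δ s t = dl (ρ g) (F s) _
    rw [hd]
    unfold dl
    rw [hcomp]
    ring

theorem exists_Q [Finite G] (A B : Subgroup G) (hA : IsPGroup 2 A) (hB : IsPGroup 2 B) (g : G)
    (hg : g ∉ AB A B) :
    ∃ (P : ℕ → ℕ → ℤ) (M : ℕ), Ach A B g (fun s t => - P s t) ∧ (∀ s t, 0 ≤ P s t) ∧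
      (∃ s t, 0 < P s t) ∧ (∀ s t, M ≤ s ∨ M ≤ t → P s t = 0) ∧
      (∀ t, P 0 t = 0) ∧ (∀ s, P s 0 = 0) := by
  have hg' : g⁻¹ ∉ AB A (B.map (MulAut.conj g).toMonoidHom) := by
    rintro ⟨a, ha, _, ⟨b, hb, rfl⟩, h⟩
    apply hg
    refine ⟨a⁻¹, inv_mem ha, b⁻¹, inv_mem hb, ?_⟩
    have h1 : a * (g * b * g⁻¹) = g⁻¹ := h
    have h2 : a * (g * b) = 1 := by
      have := congrArg (fun x => x * g) h1
      simpa [mul_assoc] using this
    have h3 : g * b = a⁻¹ := by
      rw [← mul_one a⁻¹, ← h2]; group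
    rw [← h3]; group
  obtain ⟨P, M, hP, h0, h1, h2⟩ := exists_P A (B.map (MulAut.conj g).toMonoidHom) hA
    (hB.map _) g⁻¹ hg'
  exact ⟨P, M, hP.conj, h0, h1, h2, hP.bot_left, hP.bot_right⟩

theorem sum_range_eq (f : ℕ → ℤ) (a b : ℕ) (ha : ∀ i, a ≤ i → f i = 0)
    (hb : ∀ i, b ≤ i → f i = 0) : ∑ i ∈ Finset.range a, f i = ∑ i ∈ Finset.range b, f i := by
  have h1 : ∑ i ∈ Finset.range a, f i = ∑ i ∈ Finset.range (max a b), f i := by
    apply Finset.sum_subset
    · intro x hx; rw [Finset.mem_range] at hx ⊢; omega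
    · intro x _ hx; rw [Finset.mem_range] at hx; exact ha x (by omega)
  have h2 : ∑ i ∈ Finset.range b, f i = ∑ i ∈ Finset.range (max a b), f i := by
    apply Finset.sum_subset
    · intro x hx; rw [Finset.mem_range] at hx ⊢; omega
    · intro x _ hx; rw [Finset.mem_range] at hx; exact hb x (by omega)
  rw [h1, h2]

theorem conv_eq (P Q : ℕ → ℕ → ℤ) (M : ℕ) (hQ : ∀ s t, M ≤ s ∨ M ≤ t → Q s t = 0)
    (hP0 : ∀ t, P 0 t = 0) (hP0' : ∀ s, P s 0 = 0) (s t : ℕ) :
    ∑ i ∈ Finset.range M, ∑ j ∈ Finset.range M, Q i j * P (s - i) (t - j) =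
      ∑ i ∈ Finset.range (s+1), ∑ j ∈ Finset.range (t+1), Q i j * P (s - i) (t - j) := by
  rw [sum_range_eq (fun i => ∑ j ∈ Finset.range M, Q i j * P (s - i) (t - j)) M (s+1)]
  · apply Finset.sum_congr rfl
    intro i _
    apply sum_range_eq
    · intro j hj; rw [hQ i j (Or.inr hj), zero_mul]
    · intro j hj
      have : t - j = 0 := by omega
      rw [this, hP0', mul_zero]
  · intro i hi
    apply Finset.sum_eq_zero
    intro j _
    rw [hQ i j (Or.inl hi), zero_mul]
  · intro i hi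
    apply Finset.sum_eq_zero
    intro j _
    have : s - i = 0 := by omega
    rw [this, hP0, mul_zero]

theorem conv_comm (P Q : ℕ → ℕ → ℤ) (s t : ℕ) :
    ∑ i ∈ Finset.range (s+1), ∑ j ∈ Finset.range (t+1), Q i j * P (s - i) (t - j) =
      ∑ i ∈ Finset.range (s+1), ∑ j ∈ Finset.range (t+1), P i j * Q (s - i) (t - j) := by
  rw [← Finset.sum_range_reflect]
  apply Finset.sum_congr rfl
  intro i hi
  rw [Finset.mem_range] at hi
  rw [← Finset.sum_range_reflect]
  apply Finset.sum_congr rfl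
  intro j hj
  rw [Finset.mem_range] at hj
  have e1 : s + 1 - 1 - i = s - i := by omega
  have e2 : t + 1 - 1 - j = t - j := by omega
  have e3 : s - (s - i) = i := by omega
  have e4 : t - (t - j) = j := by omega
  rw [e1, e2, e3, e4, mul_comm]

theorem ach_weighted {A B : Subgroup G} {g : G} (Q R : ℕ → ℕ → ℤ) (M : ℕ)
    (hQ0 : ∀ s t, 0 ≤ Q s t) (hQ1 : ∃ s t, 0 < Q s t) (hQM : ∀ s t, M ≤ s ∨ M ≤ t → Q s t = 0)
    (hR : Ach A B g R) :
    Ach A B g (fun s t => ∑ i ∈ Finset.range M, ∑ j ∈ Finset.range M,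
      Q i j * R (s - i) (t - j)) := by
  classical
  set S := (Finset.range M ×ˢ Finset.range M).filter (fun p : ℕ × ℕ => 0 < Q p.1 p.2) with hS
  have hne : S.Nonempty := by
    obtain ⟨s, t, h⟩ := hQ1
    refine ⟨(s, t), ?_⟩
    rw [hS, Finset.mem_filter, Finset.mem_product, Finset.mem_range, Finset.mem_range]
    refine ⟨⟨?_, ?_⟩, h⟩
    · by_contra hc
      rw [hQM s t (Or.inl (not_lt.mp hc))] at h
      exact lt_irrefl _ h
    · by_contra hc
      rw [hQM s t (Or.inr (not_lt.mp hc))] at h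
      exact lt_irrefl _ h
  have h1 := Ach.sum S hne (fun p s t => ((Q p.1 p.2).toNat : ℤ) * R (s - p.1) (t - p.2))
    (fun p hp => by
      rw [hS, Finset.mem_filter] at hp
      exact (hR.shift p.1 p.2).nsmul _ (by have := hp.2; omega))
  have e : (fun s t => ∑ i ∈ Finset.range M, ∑ j ∈ Finset.range M,
      Q i j * R (s - i) (t - j)) =
      (fun s t => ∑ p ∈ S, ((Q p.1 p.2).toNat : ℤ) * R (s - p.1) (t - p.2)) := by
    funext s t
    rw [hS, Finset.sum_filter, ← Finset.sum_product']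
    apply Finset.sum_congr rfl
    intro p _
    by_cases h : 0 < Q p.1 p.2
    · rw [if_pos h, Int.toNat_of_nonneg h.le]
    · rw [if_neg h]
      have := hQ0 p.1 p.2
      have h0 : Q p.1 p.2 = 0 := by omega
      rw [h0, zero_mul]
  rw [e]; exact h1

theorem ach_zero [Finite G] (A B : Subgroup G) (hA : IsPGroup 2 A) (hB : IsPGroup 2 B) (g : G)
    (hg : g ∉ AB A B) : Ach A B g (fun _ _ => 0) := by
  obtain ⟨P, M, hP, P0, P1, P2⟩ := exists_P A B hA hB g hg
  obtain ⟨Q, M', hQ, Q0, Q1, Q2, Q3, Q4⟩ := exists_Q A B hA hB g hg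
  have a := ach_weighted Q P M' Q0 Q1 Q2 hP
  have b := ach_weighted P (fun s t => - Q s t) M P0 P1 P2 hQ
  have c := a.add b
  have e : (fun (_ _ : ℕ) => (0 : ℤ)) = fun s t =>
      (∑ i ∈ Finset.range M', ∑ j ∈ Finset.range M', Q i j * P (s - i) (t - j)) +
      (∑ i ∈ Finset.range M, ∑ j ∈ Finset.range M, P i j * (- Q (s - i) (t - j))) := by
    funext s t
    have h1 : ∑ i ∈ Finset.range M, ∑ j ∈ Finset.range M, P i j * (- Q (s - i) (t - j)) =
        - ∑ i ∈ Finset.range M, ∑ j ∈ Finset.range M, P i j * Q (s - i) (t - j) := by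
      rw [← Finset.sum_neg_distrib]
      apply Finset.sum_congr rfl
      intro i _
      rw [← Finset.sum_neg_distrib]
      apply Finset.sum_congr rfl
      intro j _
      ring
    rw [h1, conv_eq P Q M' Q2 hP.bot_left hP.bot_right, conv_eq Q P M P2 Q3 Q4, conv_comm]
    ring
  rw [e]; exact c

/-- the extension step -/
theorem ext_step (G : Type) [Group G] [Finite G] (A B : Subgroup G) (hA : IsPGroup 2 A)
    (hB : IsPGroup 2 B) (g : G) :
    ∃ (H : Type) (_ : Group H) (_ : Finite H) (j : G →* H) (A' B' : Subgroup H),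
      Function.Injective j ∧ IsPGroup 2 A' ∧ IsPGroup 2 B' ∧ A.map j ≤ A' ∧ B.map j ≤ B' ∧
      ∃ a ∈ A', ∃ b ∈ B', j g = a * b := by
  by_cases hg : g ∈ AB A B
  · obtain ⟨a, ha, b, hb, h⟩ := hg
    refine ⟨G, inferInstance, inferInstance, MonoidHom.id G, A, B, fun _ _ h => h, hA, hB, ?_, ?_,
      a, ha, b, hb, h.symm⟩
    · rw [Subgroup.map_id]
    · rw [Subgroup.map_id]
  · obtain ⟨V, _, _, _, ρ, F, Y, hρ, hF, hY, hd⟩ := ach_zero A B hA hB g hg
    obtain ⟨A', B', h1, h2, h3, h4, h5⟩ := ext_of_zero ρ A B g F Y hF hY (fun s t => (hd s t).symm)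
    have : Finite (V ≃ₗ[K] V) := by
      apply Finite.of_injective (fun e : V ≃ₗ[K] V => (e : V → V))
      intro a b h
      ext v
      exact congrFun h v
    exact ⟨V ≃ₗ[K] V, inferInstance, this, ρ, A', B', hρ, h1, h2, h3, h4, h5⟩

end Pool.MP_debbfb_al.Ext
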