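import Pool.Agent.Lib_MP_debbfb_al.Linear

set_option autoImplicit false

/-!
Filtrations with trivial quotients, refinement, and the extension obtained from a zero position
difference.
-/

namespace Pool.MP_debbfb_al.Ext

open Module Submodule

section Filt

variable {V : Type} [AddCommGroup V] [Module K V]
variable {G : Type} [Group G]

/-- an increasing exhaustive filtration with `A` acting trivially on the quotients -/
structure Filt (ρ : G →* (V ≃ₗ[K] V)) (A : Subgroup G) (F : ℕ → Submodule K V) : Prop where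
  mono : Monotone F
  zero : F 0 = ⊥
  top : ∃ p, F p = ⊤
  triv : ∀ a ∈ A, ∀ s, ∀ v ∈ F (s+1), ρ a v - v ∈ F s

/-- the stabiliser of a filtration -/
def stabFil (F : ℕ → Submodule K V) : Subgroup (V ≃ₗ[K] V) where
  carrier := {x | ∀ s, (F s).map (x : V →ₗ[K] V) = F s}
  mul_mem' := by
    intro x y hx hy s
    have : ((x * y : V ≃ₗ[K] V) : V →ₗ[K] V) = (x : V →ₗ[K] V) ∘ₗ (y : V →ₗ[K] V) := rfl
    rw [this, Submodule.map_comp, hy s, hx s]
  one_mem' := by
    intro s; exact Submodule.map_id _
  inv_mem' := by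
    intro x hx s
    have h := hx s
    have h2 : ((F s).map (x : V →ₗ[K] V)).map ((x⁻¹ : V ≃ₗ[K] V) : V →ₗ[K] V) = F s := by
      rw [← Submodule.map_comp]
      have : ((x⁻¹ : V ≃ₗ[K] V) : V →ₗ[K] V) ∘ₗ (x : V →ₗ[K] V) = LinearMap.id := by
        ext v
        exact x.symm_apply_apply v
      rw [this, Submodule.map_id]
    rw [h] at h2
    exact h2

theorem mem_stabFil {F : ℕ → Submodule K V} {x : V ≃ₗ[K] V} :
    x ∈ stabFil F ↔ ∀ s, (F s).map (x : V →ₗ[K] V) = F s := Iff.rfl

theorem isPGroup_of_triv (U : Subgroup (V ≃ₗ[K] V)) (F : ℕ → Submodule K V) 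
    (hF0 : F 0 = ⊥) (hFt : ∃ p, ∀ q, p ≤ q → F q = ⊤)
    (htriv : ∀ x ∈ U, ∀ s, ∀ v ∈ F (s+1), x v - v ∈ F s) : IsPGroup 2 U := by
  obtain ⟨p, hp⟩ := hFt
  rintro ⟨x, hx⟩
  have key : ∀ k : ℕ, ∀ s, ∀ v ∈ F (s + 2^k), (x^(2^k)) v - v ∈ F s := by
    intro k
    induction k with
    | zero => intro s v hv; simpa using htriv x hx s v (by simpa using hv)
    | succ k ih =>
      intro s v hv
      have e : s + 2^(k+1) = (s + 2^k) + 2^k := by rw [pow_succ]; ring
      rw [e] at hv
      have h1 := ih (s + 2^k) v hv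
      have h2 := ih s _ h1
      set y := x^(2^k) with hy
      have e2 : x^(2^(k+1)) = y * y := by rw [pow_succ, pow_mul, pow_two]
      rw [e2]
      have e3 : (y * y) v - v = y (y v - v) - (y v - v) := by
        rw [map_sub]
        show y (y v) - v = y (y v) - y v - (y v - v)
        rw [vsub_eq, vsub_eq, vsub_eq, vsub_eq]
        have : y (y v) + y v + (y v + v) = y (y v) + (y v + y v) + v := by abel
        rw [this, vadd_self, add_zero]
      rw [e3]; exact h2
  obtain ⟨k, hk⟩ : ∃ k : ℕ, p ≤ 2^k := ⟨p, (Nat.lt_two_pow_self).le⟩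
  refine ⟨k, ?_⟩
  ext v
  have h := key k 0 v (by rw [hp _ (by omega)]; trivial)
  rw [hF0, Submodule.mem_bot, sub_eq_zero] at h
  exact h

variable [Finite V]

theorem isPGroup_stabFil (F : ℕ → Submodule K V) (hmono : Monotone F)
    (hF0 : F 0 = ⊥) (hFt : ∃ p, F p = ⊤)
    (hj : ∀ s, finrank K (F (s+1)) ≤ finrank K (F s) + 1) : IsPGroup 2 (stabFil F) := by
  obtain ⟨p, hp⟩ := hFt
  refine isPGroup_of_triv _ F hF0 ⟨p, fun q hq => top_le_iff.mp (hp ▸ hmono hq)⟩ ?_
  intro x hx s v hv
  have hmem : ∀ s v, v ∈ F s → x v ∈ F s := by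
    intro s v hv
    rw [← hx s]; exact ⟨v, hv, rfl⟩
  have hnot : ∀ s v, v ∉ F s → x v ∉ F s := by
    intro s v hv h
    rw [← hx s] at h
    obtain ⟨w, hw, hwv⟩ := h
    have : w = v := x.injective hwv
    exact hv (this ▸ hw)
  rw [vsub_eq]
  by_cases h : v ∈ F s
  · exact add_mem (hmem s v h) h
  · exact add_mem_of_finrank_le (hmono (Nat.le_succ s)) (hj s) (hmem _ v hv) hv (hnot s v h) h

/-- number of missing dimensions -/
noncomputable def gap (F : ℕ → Submodule K V) : ℕ := by
  classical
  exact ((Finset.range (finrank K V + 1)).filter (fun k => ∀ s, finrank K (F s) ≠ k)).card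

theorem exists_refine (ρ : G →* (V ≃ₗ[K] V)) (A : Subgroup G) (g : V ≃ₗ[K] V)
    (Y : ℕ → Submodule K V) (hY : Monotone Y) (htop : ∃ p, Y p = ⊤) :
    ∀ (n : ℕ) (F : ℕ → Submodule K V), Filt ρ A F → (∀ s t, dl g (F s) (Y t) = 0) → gap F ≤ n →
    ∃ F' : ℕ → Submodule K V, Filt ρ A F' ∧ (∀ s t, dl g (F' s) (Y t) = 0) ∧
      ∀ s, finrank K (F' (s+1)) ≤ finrank K (F' s) + 1 := by
  classical
  intro n
  induction n with
  | zero =>
    intro F hF hd hg
    refine ⟨F, hF, hd, ?_⟩
    intro s
    by_contra hcon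
    rw [not_le] at hcon
    have h0 : gap F = 0 := by omega
    unfold gap at h0
    rw [Finset.card_eq_zero, Finset.filter_eq_empty_iff] at h0
    have h1 := @h0 (finrank K (F s) + 1) (by
      rw [Finset.mem_range]
      have := Submodule.finrank_le (F (s+1))
      omega)
    push Not at h1
    obtain ⟨s', hs'⟩ := h1
    rcases Nat.lt_or_ge s s' with h | h
    · have := finrank_mono (hF.mono (show s + 1 ≤ s' from h))
      omega
    · have := finrank_mono (hF.mono h)
      omega
  | succ n ih =>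
    intro F hF hd hg
    by_cases hall : ∀ s, finrank K (F (s+1)) ≤ finrank K (F s) + 1
    · exact ⟨F, hF, hd, hall⟩
    · push Not at hall
      obtain ⟨s, hs⟩ := hall
      obtain ⟨Z, hZ0, hZ1, hZf, hZd⟩ := exists_insert g (hF.mono (Nat.le_succ s)) (by
        show _ ≤ finrank K (F (s+1)); omega) Y hY htop (fun t => hd s t) (fun t => hd (s+1) t)
      have hZf' : finrank K Z + 1 = finrank K (F (s+1)) := hZf
      set F2 : ℕ → Submodule K V := fun i => if i ≤ s then F i else if i = s + 1 then Z else F (i-1)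
        with hF2
      have e1 : ∀ i, i ≤ s → F2 i = F i := by intro i hi; simp [hF2, hi]
      have e2 : F2 (s+1) = Z := by simp [hF2]
      have e3 : ∀ i, s + 2 ≤ i → F2 i = F (i-1) := by
        intro i hi
        have a : ¬ i ≤ s := by omega
        have b : i ≠ s+1 := by omega
        simp [hF2, a, b]
      have hstep : ∀ i, F2 i ≤ F2 (i+1) := by
        intro i
        rcases lt_trichotomy i s with h | h | h
        · rw [e1 i h.le, e1 (i+1) h]; exact hF.mono (Nat.le_succ i)
        · subst h; rw [e1 i le_rfl, e2]; exact hZ0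
        · rcases Nat.eq_or_lt_of_le (show s + 1 ≤ i from h) with h' | h'
          · rw [← h', e2, e3 (s+1+1) (by omega)]; exact hZ1
          · rw [e3 i h', e3 (i+1) (by omega)]; exact hF.mono (by omega)
      have hFilt : Filt ρ A F2 := by
        refine ⟨monotone_nat_of_le_succ hstep, ?_, ?_, ?_⟩
        · rw [e1 0 (Nat.zero_le _)]; exact hF.zero
        · obtain ⟨p, hp⟩ := hF.top
          refine ⟨p + s + 2, ?_⟩
          rw [e3 _ (by omega)]
          exact top_le_iff.mp (hp ▸ hF.mono (by omega))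
        · intro a ha i v hv
          rcases lt_trichotomy i s with h | h | h
          · rw [e1 i h.le]; rw [e1 (i+1) h] at hv; exact hF.triv a ha i v hv
          · subst h; rw [e1 i le_rfl]; rw [e2] at hv; exact hF.triv a ha i v (hZ1 hv)
          · rcases Nat.eq_or_lt_of_le (show s + 1 ≤ i from h) with h' | h'
            · rw [← h', e2]; rw [← h', e3 (s+1+1) (by omega)] at hv
              exact hZ0 (hF.triv a ha s v hv)
            · rw [e3 i h']; rw [e3 (i+1) (by omega)] at hv
              have e : i + 1 - 1 = (i - 1) + 1 := by omega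
              rw [e] at hv
              exact hF.triv a ha (i-1) v hv
      have hd2 : ∀ i t, dl g (F2 i) (Y t) = 0 := by
        intro i t
        rcases lt_trichotomy i (s+1) with h | h | h
        · rw [e1 i (by omega)]; exact hd i t
        · rw [h, e2]; exact hZd t
        · rw [e3 i h]; exact hd _ t
      refine ih F2 hFilt hd2 ?_
      have hlt : gap F2 < gap F := by
        unfold gap
        apply Finset.card_lt_card
        rw [Finset.ssubset_iff_of_subset]
        · refine ⟨finrank K Z, ?_, ?_⟩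
          · rw [Finset.mem_filter, Finset.mem_range]
            refine ⟨by have := Submodule.finrank_le Z; omega, ?_⟩
            intro i hi
            rcases Nat.lt_or_ge s i with h | h
            · have := finrank_mono (hF.mono (show s + 1 ≤ i from h))
              omega
            · have := finrank_mono (hF.mono h)
              omega
          · rw [Finset.mem_filter]
            rintro ⟨-, h⟩
            exact h (s+1) (by rw [e2])
        · intro k hk
          rw [Finset.mem_filter] at hk ⊢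
          refine ⟨hk.1, ?_⟩
          intro i
          rcases Nat.lt_or_ge s i with h | h
          · have := hk.2 (i+1)
            rw [e3 (i+1) (by omega)] at this
            simpa using this
          · have := hk.2 i
            rw [e1 i h] at this
            exact this
      omega

omit [Finite V] in
theorem dl_swap (g : V ≃ₗ[K] V) (X Y : Submodule K V) : dl g⁻¹ Y X = dl g X Y := by
  unfold dl
  have h1 : finrank K ↥(Y ⊓ X.map ((g⁻¹ : V ≃ₗ[K] V) : V →ₗ[K] V)) =
      finrank K ↥(X ⊓ Y.map (g : V →ₗ[K] V)) := by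
    rw [← finrank_map_equiv g (Y ⊓ _), map_inf_equiv, ← Submodule.map_comp]
    have : (g : V →ₗ[K] V) ∘ₗ ((g⁻¹ : V ≃ₗ[K] V) : V →ₗ[K] V) = LinearMap.id := by
      ext v
      exact g.apply_symm_apply v
    rw [this, Submodule.map_id, inf_comm]
  rw [h1, inf_comm]

/-- the extension step obtained from two filtrations in equal relative positions -/
theorem ext_of_zero (ρ : G →* (V ≃ₗ[K] V)) (A B : Subgroup G) (g : G)
    (F Y : ℕ → Submodule K V) (hF : Filt ρ A F) (hY : Filt ρ B Y)
    (hd : ∀ s t, dl (ρ g) (F s) (Y t) = 0) :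
    ∃ A' B' : Subgroup (V ≃ₗ[K] V), IsPGroup 2 A' ∧ IsPGroup 2 B' ∧ A.map ρ ≤ A' ∧ B.map ρ ≤ B' ∧
      ∃ a ∈ A', ∃ b ∈ B', ρ g = a * b := by
  obtain ⟨F', hF', hd', hj'⟩ := exists_refine ρ A (ρ g) Y hY.mono hY.top _ F hF hd le_rfl
  obtain ⟨Y', hY', hd'', hj''⟩ := exists_refine ρ B (ρ g)⁻¹ F' hF'.mono hF'.top _ Y hY
    (fun s t => by rw [dl_swap]; exact hd' t s) le_rfl
  have hd3 : ∀ s t, dl (ρ g) (F' s) (Y' t) = 0 := by
    intro s t
    rw [← dl_swap]; exact hd'' t s
  obtain ⟨p, hp⟩ := hY'.top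
  obtain ⟨x, hx, hxY⟩ := exists_transport (ρ g) F' Y' hF'.mono hF'.zero hF'.top hj' hY'.mono
    hY'.zero hj'' hd3 p
  have hxY' : ∀ j, (Y' j).map (ρ g : V →ₗ[K] V) = (Y' j).map (x : V →ₗ[K] V) := by
    intro j
    rcases le_total j p with h | h
    · exact hxY j h
    · have : Y' j = Y' p := le_antisymm (by rw [hp]; exact le_top) (hY'.mono h)
      rw [this]; exact hxY p le_rfl
  have hmemA : ∀ (A : Subgroup G) (F : ℕ → Submodule K V), Filt ρ A F → A.map ρ ≤ stabFil F := by
    intro A F hF
    rintro _ ⟨a, ha, rfl⟩ s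
    apply eq_of_le_of_finrank_le
    · rintro _ ⟨z, hz, rfl⟩
      show ρ a z ∈ F s
      cases s with
      | zero =>
        have hz' : z ∈ F 0 := hz
        rw [hF.zero, Submodule.mem_bot] at hz'
        rw [hz', map_zero]; exact zero_mem _
      | succ s =>
        have := hF.triv a ha s z hz
        have h2 : ρ a z = (ρ a z - z) + z := by abel
        rw [h2]
        exact add_mem (hF.mono (Nat.le_succ s) this) hz
    · rw [finrank_map_equiv]
  refine ⟨stabFil F', stabFil Y', isPGroup_stabFil F' hF'.mono hF'.zero hF'.top hj',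
    isPGroup_stabFil Y' hY'.mono hY'.zero hY'.top hj'', hmemA A F' hF', hmemA B Y' hY',
    x, hx, x⁻¹ * ρ g, ?_, by group⟩
  intro s
  have : ((x⁻¹ * ρ g : V ≃ₗ[K] V) : V →ₗ[K] V) =
    ((x⁻¹ : V ≃ₗ[K] V) : V →ₗ[K] V) ∘ₗ (ρ g : V →ₗ[K] V) := rfl
  rw [this, Submodule.map_comp, hxY', ← Submodule.map_comp]
  have : ((x⁻¹ : V ≃ₗ[K] V) : V →ₗ[K] V) ∘ₗ (x : V →ₗ[K] V) = LinearMap.id := by
    ext v
    exact x.symm_apply_apply v
  rw [this, Submodule.map_id]

end Filt

end Pool.MP_debbfb_al.Ext
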