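import Pool.Agent.Lib_MP_debbfb_al.Comb

set_option autoImplicit false

/-!
The direct limit.
-/

namespace Pool.MP_debbfb_al.Ext

/-- a finite group with two 2-subgroups -/
structure Tri where
  H : Type
  [grp : Group H]
  [fin : Finite H]
  A : Subgroup H
  B : Subgroup H
  hA : IsPGroup 2 A
  hB : IsPGroup 2 B

attribute [instance] Tri.grp Tri.fin

/-- `T'` extends `T` -/
structure Emb (T T' : Tri) where
  j : T.H →* T'.H
  inj : Function.Injective j
  hA : T.A.map j ≤ T'.A
  hB : T.B.map j ≤ T'.B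

def Emb.comp {T T' T'' : Tri} (e : Emb T T') (e' : Emb T' T'') : Emb T T'' where
  j := e'.j.comp e.j
  inj := e'.inj.comp e.inj
  hA := by
    rw [← Subgroup.map_map]
    exact (Subgroup.map_mono e.hA).trans e'.hA
  hB := by
    rw [← Subgroup.map_map]
    exact (Subgroup.map_mono e.hB).trans e'.hB

def Emb.id (T : Tri) : Emb T T where
  j := MonoidHom.id _
  inj := fun _ _ h => h
  hA := by rw [Subgroup.map_id]
  hB := by rw [Subgroup.map_id]

theorem full_step_aux (T : Tri) (S : Finset T.H) : ∃ (T' : Tri) (e : Emb T T'),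
    ∀ h ∈ S, ∃ a ∈ T'.A, ∃ b ∈ T'.B, e.j h = a * b := by
  classical
  induction S using Finset.induction_on with
  | empty => exact ⟨T, Emb.id T, by simp⟩
  | insert x S hx ih =>
    obtain ⟨T', e, he⟩ := ih
    obtain ⟨H, gH, fH, j, A', B', h1, h2, h3, h4, h5, h6⟩ :=
      ext_step T'.H T'.A T'.B T'.hA T'.hB (e.j x)
    let T'' : Tri := { H := H, grp := gH, fin := fH, A := A', B := B', hA := h2, hB := h3 }
    let e' : Emb T' T'' := { j := j, inj := h1, hA := h4, hB := h5 }
    refine ⟨T'', e.comp e', ?_⟩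
    intro h hh
    rw [Finset.mem_insert] at hh
    rcases hh with rfl | hh
    · exact h6
    · obtain ⟨a, ha, b, hb, hab⟩ := he h hh
      refine ⟨j a, h4 ⟨a, ha, rfl⟩, j b, h5 ⟨b, hb, rfl⟩, ?_⟩
      show j (e.j h) = _
      rw [hab, map_mul]

theorem full_step (T : Tri) : ∃ (T' : Tri) (e : Emb T T'),
    ∀ h : T.H, ∃ a ∈ T'.A, ∃ b ∈ T'.B, e.j h = a * b := by
  classical
  have := Fintype.ofFinite T.H
  obtain ⟨T', e, he⟩ := full_step_aux T Finset.univ
  exact ⟨T', e, fun h => he h (Finset.mem_univ h)⟩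

noncomputable def nxt (T : Tri) : Tri := (full_step T).choose

noncomputable def emb (T : Tri) : Emb T (nxt T) := (full_step T).choose_spec.choose

theorem emb_spec (T : Tri) (h : T.H) : ∃ a ∈ (nxt T).A, ∃ b ∈ (nxt T).B, (emb T).j h = a * b :=
  (full_step T).choose_spec.choose_spec h

/-- start: the symmetric group of degree five with trivial subgroups -/
def start : Tri where
  H := Equiv.Perm (Fin 5)
  A := ⊥
  B := ⊥
  hA := IsPGroup.of_bot
  hB := IsPGroup.of_bot

noncomputable def sq : ℕ → Tri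
  | 0 => start
  | n + 1 => nxt (sq n)

/-- transition maps -/
noncomputable def tr (i j : ℕ) (h : i ≤ j) : (sq i).H →* (sq j).H where
  toFun := Nat.leRecOn (C := fun n => (sq n).H) h (fun {k} => (emb (sq k)).j)
  map_one' := by
    induction j, h using Nat.le_induction with
    | base => rw [Nat.leRecOn_self]
    | succ j hij ih =>
      rw [Nat.leRecOn_succ hij, ih]
      exact map_one (emb (sq j)).j
  map_mul' x y := by
    induction j, h using Nat.le_induction with
    | base => rw [Nat.leRecOn_self, Nat.leRecOn_self, Nat.leRecOn_self]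
    | succ j hij ih =>
      rw [Nat.leRecOn_succ hij, Nat.leRecOn_succ hij, Nat.leRecOn_succ hij, ih]
      exact map_mul (emb (sq j)).j _ _

theorem tr_self (i : ℕ) (x : (sq i).H) : tr i i le_rfl x = x :=
  Nat.leRecOn_self (C := fun n => (sq n).H) x

theorem tr_succ (i j : ℕ) (h : i ≤ j) (x : (sq i).H) :
    tr i (j+1) (h.trans (Nat.le_succ j)) x = (emb (sq j)).j (tr i j h x) :=
  Nat.leRecOn_succ (C := fun n => (sq n).H) h x

theorem tr_trans (i j k : ℕ) (hij : i ≤ j) (hjk : j ≤ k) (x : (sq i).H) :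
    tr j k hjk (tr i j hij x) = tr i k (hij.trans hjk) x :=
  (Nat.leRecOn_trans (C := fun n => (sq n).H) hij hjk x).symm

theorem tr_inj (i j : ℕ) (h : i ≤ j) : Function.Injective (tr i j h) :=
  Nat.leRecOn_injective (C := fun n => (sq n).H) h _ (fun n => (emb (sq n)).inj)

theorem tr_A (i j : ℕ) (h : i ≤ j) : (sq i).A.map (tr i j h) ≤ (sq j).A := by
  induction j, h using Nat.le_induction with
  | base =>
    rintro _ ⟨x, hx, rfl⟩
    rw [tr_self]; exact hx
  | succ j hij ih =>
    rintro _ ⟨x, hx, rfl⟩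
    rw [tr_succ i j hij]
    exact (emb (sq j)).hA ⟨_, ih ⟨x, hx, rfl⟩, rfl⟩

theorem tr_B (i j : ℕ) (h : i ≤ j) : (sq i).B.map (tr i j h) ≤ (sq j).B := by
  induction j, h using Nat.le_induction with
  | base =>
    rintro _ ⟨x, hx, rfl⟩
    rw [tr_self]; exact hx
  | succ j hij ih =>
    rintro _ ⟨x, hx, rfl⟩
    rw [tr_succ i j hij]
    exact (emb (sq j)).hB ⟨_, ih ⟨x, hx, rfl⟩, rfl⟩

instance : DirectedSystem (fun n => (sq n).H) (fun i j h => tr i j h) where
  map_self _ x := tr_self _ x
  map_map _ _ _ hij hjk x := tr_trans _ _ _ hij hjk x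

/-- the limit group -/
abbrev Lim : Type := DirectLimit (fun n => (sq n).H) tr

noncomputable instance : Group Lim := inferInstance

/-- the canonical maps -/
noncomputable def of (n : ℕ) : (sq n).H →* Lim where
  toFun x := ⟦⟨n, x⟩⟧
  map_one' := (DirectLimit.one_def (f := tr) n).symm
  map_mul' x y := (DirectLimit.mul_def (f := tr) n x y).symm

theorem of_inj (n : ℕ) : Function.Injective (of n) :=
  DirectLimit.mk_injective tr (fun i j h => tr_inj i j h) n

theorem of_tr (i j : ℕ) (h : i ≤ j) (x : (sq i).H) : of j (tr i j h x) = of i x := by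
  show (⟦⟨j, tr i j h x⟩⟧ : DirectLimit (fun n => (sq n).H) tr) = ⟦⟨i, x⟩⟧
  exact DirectLimit.mk_apply (f := tr) i j x h

theorem exists_of (z : Lim) : ∃ n x, z = of n x := DirectLimit.exists_eq_mk tr z

theorem A_mono : Monotone (fun n => (sq n).A.map (of n)) := by
  intro i j h
  rintro _ ⟨x, hx, rfl⟩
  exact ⟨tr i j h x, tr_A i j h ⟨x, hx, rfl⟩, of_tr i j h x⟩

theorem B_mono : Monotone (fun n => (sq n).B.map (of n)) := by
  intro i j h
  rintro _ ⟨x, hx, rfl⟩
  exact ⟨tr i j h x, tr_B i j h ⟨x, hx, rfl⟩, of_tr i j h x⟩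

theorem range_mono : Monotone (fun n => (of n).range) := by
  intro i j h
  rintro _ ⟨x, rfl⟩
  exact ⟨tr i j h x, of_tr i j h x⟩

/-- a finite subset of a monotone union of subgroups lies in a member -/
theorem finset_le {Γ : Type} [Group Γ] (U : ℕ → Subgroup Γ) (hU : Monotone U) (s : Finset Γ)
    (hs : ∀ x ∈ s, ∃ n, x ∈ U n) : ∃ n, (s : Set Γ) ⊆ U n := by
  classical
  induction s using Finset.induction_on with
  | empty => exact ⟨0, by simp⟩
  | insert x s hx ih =>
    obtain ⟨n, hn⟩ := ih (fun y hy => hs y (Finset.mem_insert_of_mem hy))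
    obtain ⟨m, hm⟩ := hs x (Finset.mem_insert_self x s)
    refine ⟨max n m, ?_⟩
    intro y hy
    rw [Finset.mem_coe, Finset.mem_insert] at hy
    rcases hy with rfl | hy
    · exact hU (le_max_right n m) hm
    · exact hU (le_max_left n m) (hn hy)

theorem nilp {Γ : Type} [Group Γ] (U : ℕ → Subgroup Γ) (hU : Monotone U)
    (hfin : ∀ n, Finite (U n)) (hp : ∀ n, IsPGroup 2 (U n)) (s : Finset Γ)
    (hs : (s : Set Γ) ⊆ ((⨆ n, U n : Subgroup Γ) : Set Γ)) :
    Group.IsNilpotent (Subgroup.closure (s : Set Γ)) := by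
  obtain ⟨n, hn⟩ := finset_le U hU s (fun x hx => by
    have := hs hx
    rw [SetLike.mem_coe, Subgroup.mem_iSup_of_directed hU.directed_le] at this
    exact this)
  have hle : Subgroup.closure (s : Set Γ) ≤ U n := (Subgroup.closure_le _).mpr hn
  have hfin' : Finite (Subgroup.closure (s : Set Γ)) :=
    Finite.of_injective _ (Subgroup.inclusion_injective hle)
  have : IsPGroup 2 (Subgroup.closure (s : Set Γ)) := (hp n).to_le hle
  exact this.isNilpotent

theorem final : ¬ (∀ (G : Type) [Group G],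
      (∀ s : Finset G, Finite (Subgroup.closure (s : Set G))) →
      ∀ A B : Subgroup G,
        (∀ s : Finset G, (s : Set G) ⊆ (A : Set G) →
          Group.IsNilpotent (Subgroup.closure (s : Set G))) →
        (∀ s : Finset G, (s : Set G) ⊆ (B : Set G) →
          Group.IsNilpotent (Subgroup.closure (s : Set G))) →
        (∀ g : G, ∃ a ∈ A, ∃ b ∈ B, g = a * b) →
        ∀ s : Finset G, IsSolvable (Subgroup.closure (s : Set G))) := by
  classical
  intro H
  have h := H Lim ?_ (⨆ n, (sq n).A.map (of n)) (⨆ n, (sq n).B.map (of n)) ?_ ?_ ?_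
  · -- Perm (Fin 5) is not solvable
    let of0 : Equiv.Perm (Fin 5) →* Lim := of 0
    have hof0 : Function.Injective of0 := of_inj 0
    set s : Finset Lim := (Finset.univ : Finset (Equiv.Perm (Fin 5))).image of0 with hs
    have h1 : Group.IsSolvable (Subgroup.closure (s : Set Lim)) := h s
    have h2 : ∀ x : Equiv.Perm (Fin 5), of0 x ∈ Subgroup.closure (s : Set Lim) := by
      intro x
      apply Subgroup.subset_closure
      rw [hs, Finset.mem_coe, Finset.mem_image]
      exact ⟨x, Finset.mem_univ _, rfl⟩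
    let φ : Equiv.Perm (Fin 5) →* Subgroup.closure (s : Set Lim) :=
      of0.codRestrict _ h2
    have hφ : Function.Injective φ := by
      intro x y hxy
      exact hof0 (congrArg Subtype.val hxy)
    have h3 : Group.IsSolvable (Equiv.Perm (Fin 5)) := Group.isSolvable_of_isSolvable_injective hφ
    exact Equiv.Perm.not_isSolvable_fin_5 h3
  · intro s
    obtain ⟨n, hn⟩ := finset_le (fun n => (of n).range) range_mono s (fun x _ => by
      obtain ⟨n, y, rfl⟩ := exists_of x
      exact ⟨n, ⟨y, rfl⟩⟩)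
    have hle : Subgroup.closure (s : Set Lim) ≤ (of n).range := (Subgroup.closure_le _).mpr hn
    have : Finite (of n).range := Finite.of_surjective _ (of n).rangeRestrict_surjective
    exact Finite.of_injective _ (Subgroup.inclusion_injective hle)
  · intro s hs
    refine nilp _ A_mono ?_ ?_ s hs
    · intro n
      exact Finite.of_surjective _ ((of n).subgroupMap_surjective (sq n).A)
    · intro n
      exact (sq n).hA.map _
  · intro s hs
    refine nilp _ B_mono ?_ ?_ s hs
    · intro n
      exact Finite.of_surjective _ ((of n).subgroupMap_surjective (sq n).B)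
    · intro n
      exact (sq n).hB.map _
  · intro z
    obtain ⟨n, x, rfl⟩ := exists_of z
    obtain ⟨a, ha, b, hb, hab⟩ := emb_spec (sq n) x
    have e : of n x = of (n+1) ((emb (sq n)).j x) := by
      rw [← of_tr n (n+1) (Nat.le_succ n), tr_succ n n le_rfl, tr_self]
    refine ⟨of (n+1) a, ?_, of (n+1) b, ?_, ?_⟩
    · exact Subgroup.mem_iSup_of_mem (n+1) ⟨a, ha, rfl⟩
    · exact Subgroup.mem_iSup_of_mem (n+1) ⟨b, hb, rfl⟩
    · rw [e, hab]
      exact map_mul (of (n+1)) a b

end Pool.MP_debbfb_al.Ext
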