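import Mathlib

set_option autoImplicit false

/-!
Linear algebra over `F_2` for MP_debbfb_al: relative positions of filtrations.
-/

namespace Pool.MP_debbfb_al.Ext

open Module Submodule

abbrev K := ZMod 2

section Lin

variable {V : Type} [AddCommGroup V] [Module K V]

theorem K_cases (c : K) : c = 0 ∨ c = 1 := by
  revert c; decide

theorem vadd_self (v : V) : v + v = 0 := by
  have h : (2 : K) • v = v + v := two_smul K v
  have h2 : (2 : K) = 0 := by decide
  rw [← h, h2, zero_smul]

theorem vsub_eq (v w : V) : v - w = v + w := by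
  have := vadd_self w
  rw [sub_eq_add_neg, neg_eq_of_add_eq_zero_left this]

/-- difference of the dimensions of `X ∩ Y` and `X ∩ gY` -/
noncomputable def dl (g : V ≃ₗ[K] V) (X Y : Submodule K V) : ℤ :=
  (finrank K ↥(X ⊓ Y) : ℤ) - (finrank K ↥(X ⊓ Y.map (g : V →ₗ[K] V)) : ℤ)

variable [Finite V]

/-- the subspace has codimension at most one: two vectors outside of it have their sum in it -/
theorem add_mem_of_finrank_le {X0 X1 : Submodule K V} (h01 : X0 ≤ X1)
    (hf : finrank K X1 ≤ finrank K X0 + 1) {v w : V} (hv : v ∈ X1) (hw : w ∈ X1)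
    (hv0 : v ∉ X0) (hw0 : w ∉ X0) : v + w ∈ X0 := by
  by_contra hvw
  -- X0 + <v> has dimension ≥ finrank X0 + 1, so it is X1
  have hlt : X0 < X0 ⊔ span K {v} := by
    refine lt_of_le_of_ne le_sup_left ?_
    intro h
    exact hv0 (h ▸ (mem_sup_right (mem_span_singleton_self v)))
  have hle : X0 ⊔ span K {v} ≤ X1 := by
    refine sup_le h01 ?_
    rw [span_singleton_le_iff_mem]; exact hv
  have h1 : finrank K X0 < finrank K ↥(X0 ⊔ span K {v}) := finrank_lt_finrank_of_lt hlt
  have heq : X0 ⊔ span K {v} = X1 := by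
    apply eq_of_le_of_finrank_le hle
    omega
  have hw1 : w ∈ X0 ⊔ span K {v} := heq ▸ hw
  rw [mem_sup] at hw1
  obtain ⟨y, hy, z, hz, hyz⟩ := hw1
  rw [mem_span_singleton] at hz
  obtain ⟨c, hc⟩ := hz
  rcases K_cases c with h0 | h1
  · subst h0; rw [zero_smul] at hc; subst hc; rw [add_zero] at hyz; exact hw0 (hyz ▸ hy)
  · subst h1; rw [one_smul] at hc; subst hc
    apply hvw
    rw [← hyz]
    have : v + (y + v) = y + (v + v) := by abel
    rw [this, vadd_self, add_zero]; exact hy

theorem le_iff_finrank {X0 X1 Y : Submodule K V} (h01 : X0 ≤ X1) :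
    X1 ⊓ Y ≤ X0 ↔ finrank K ↥(X1 ⊓ Y) = finrank K ↥(X0 ⊓ Y) := by
  constructor
  · intro h
    have : X1 ⊓ Y = X0 ⊓ Y := le_antisymm (le_inf h inf_le_right) (inf_le_inf_right _ h01)
    rw [this]
  · intro h
    have h2 : X0 ⊓ Y = X1 ⊓ Y :=
      eq_of_le_of_finrank_le (inf_le_inf_right _ h01) (le_of_eq h)
    rw [← h2]; exact inf_le_left

theorem finrank_inf_ker {W : Submodule K V} {f : V →ₗ[K] K} {u : V} (hu : u ∈ W)
    (hfu : f u ≠ 0) : finrank K ↥(W ⊓ LinearMap.ker f) + 1 = finrank K W := by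
  have hlt : W ⊓ LinearMap.ker f < W := by
    refine lt_of_le_of_ne inf_le_left ?_
    intro h
    have : u ∈ W ⊓ LinearMap.ker f := by rw [h]; exact hu
    exact hfu this.2
  have h1 := finrank_lt_finrank_of_lt hlt
  have h2 : W ≤ (W ⊓ LinearMap.ker f) ⊔ span K {u} := by
    intro w hw
    rcases K_cases (f w) with h0 | h1
    · exact mem_sup_left ⟨hw, h0⟩
    · have hu1 : f u = 1 := by
        rcases K_cases (f u) with h | h
        · exact absurd h hfu
        · exact h
      have : w = (w + u) + u := by rw [add_assoc, vadd_self, add_zero]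
      rw [this]
      have hz : f (w + u) = 0 := by rw [map_add, h1, hu1]; decide
      exact add_mem (mem_sup_left ⟨add_mem hw hu, hz⟩) (mem_sup_right (mem_span_singleton_self u))
  have h3 := finrank_mono h2
  have h4 := finrank_add_le_finrank_add_finrank (W ⊓ LinearMap.ker f) (span K {u})
  have h5 : finrank K ↥(span K {u}) ≤ 1 := by
    have := finrank_span_le_card (R := K) ({u} : Set V)
    simpa using this
  omega

omit [Finite V] in
/-- a functional vanishing on `X0` and nonzero at two given vectors outside of `X0` -/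
theorem exists_functional_two {X0 : Submodule K V} {u u' : V} (hu : u ∉ X0) (hu' : u' ∉ X0) :
    ∃ f : V →ₗ[K] K, X0 ≤ LinearMap.ker f ∧ f u ≠ 0 ∧ f u' ≠ 0 := by
  obtain ⟨f1, hf1, hX1⟩ := exists_le_ker_of_notMem hu
  obtain ⟨f2, hf2, hX2⟩ := exists_le_ker_of_notMem hu'
  by_cases h1 : f1 u' = 0
  · by_cases h2 : f2 u = 0
    · refine ⟨f1 + f2, ?_, ?_, ?_⟩
      · intro x hx
        have a := hX1 hx
        have b := hX2 hx
        rw [LinearMap.mem_ker] at a b ⊢
        rw [LinearMap.add_apply, a, b, add_zero]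
      · rw [LinearMap.add_apply, h2, add_zero]; exact hf1
      · rw [LinearMap.add_apply, h1, zero_add]; exact hf2
    · exact ⟨f2, hX2, h2, hf2⟩
  · exact ⟨f1, hX1, hf1, h1⟩

omit [Finite V] in
theorem map_inf_equiv (g : V ≃ₗ[K] V) (X Y : Submodule K V) :
    (X ⊓ Y).map (g : V →ₗ[K] V) = X.map (g : V →ₗ[K] V) ⊓ Y.map (g : V →ₗ[K] V) :=
  Submodule.map_inf _ g.injective

omit [Finite V] in
theorem finrank_map_equiv (g : V ≃ₗ[K] V) (X : Submodule K V) :
    finrank K ↥(X.map (g : V →ₗ[K] V)) = finrank K X :=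
  LinearEquiv.finrank_map_eq g X

/-- insertion of a hyperplane -/
theorem exists_insert (g : V ≃ₗ[K] V) {X0 X1 : Submodule K V} (h01 : X0 ≤ X1)
    (hf : finrank K X0 + 2 ≤ finrank K X1) (Y : ℕ → Submodule K V) (hY : Monotone Y)
    (htop : ∃ p, Y p = ⊤) (h0 : ∀ t, dl g X0 (Y t) = 0) (h1 : ∀ t, dl g X1 (Y t) = 0) :
    ∃ Z : Submodule K V, X0 ≤ Z ∧ Z ≤ X1 ∧ finrank K Z + 1 = finrank K X1 ∧
      ∀ t, dl g Z (Y t) = 0 := by
  classical
  have hX : ¬ X1 ≤ X0 := by
    intro h
    have := finrank_mono h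
    omega
  have hex : ∃ t, ¬ (X1 ⊓ Y t ≤ X0) := by
    obtain ⟨p, hp⟩ := htop
    exact ⟨p, by rw [hp, inf_top_eq]; exact hX⟩
  have hiff : ∀ t, (X1 ⊓ Y t ≤ X0 ↔ X1 ⊓ (Y t).map (g : V →ₗ[K] V) ≤ X0) := by
    intro t
    rw [le_iff_finrank h01, le_iff_finrank h01]
    have a := h0 t
    have b := h1 t
    unfold dl at a b
    omega
  set t0 := Nat.find hex with ht0
  have ht0s := Nat.find_spec hex
  rw [← ht0] at ht0s
  have hmin : ∀ t, t < t0 → X1 ⊓ Y t ≤ X0 := by
    intro t ht
    have := Nat.find_min hex ht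
    exact not_not.mp this
  have ht0s' := (not_congr (hiff t0)).mp ht0s
  rw [SetLike.not_le_iff_exists] at ht0s ht0s'
  obtain ⟨u, hu, hu0⟩ := ht0s
  obtain ⟨u', hu', hu0'⟩ := ht0s'
  obtain ⟨f, hfX, hfu, hfu'⟩ := exists_functional_two hu0 hu0'
  have hassoc : ∀ W : Submodule K V, X1 ⊓ LinearMap.ker f ⊓ W = (X1 ⊓ W) ⊓ LinearMap.ker f := by
    intro W; rw [inf_assoc, inf_assoc, inf_comm (LinearMap.ker f) W]
  refine ⟨X1 ⊓ LinearMap.ker f, le_inf h01 hfX, inf_le_left, finrank_inf_ker hu.1 hfu, ?_⟩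
  intro t
  unfold dl
  rw [hassoc, hassoc]
  have b := h1 t
  unfold dl at b
  by_cases ht : t < t0
  · have c1 := hmin t ht
    have c2 := (hiff t).mp c1
    rw [inf_eq_left.mpr (c1.trans hfX), inf_eq_left.mpr (c2.trans hfX)]
    exact b
  · rw [not_lt] at ht
    have d1 : u ∈ X1 ⊓ Y t := ⟨hu.1, hY ht hu.2⟩
    have d2 : u' ∈ X1 ⊓ (Y t).map (g : V →ₗ[K] V) := ⟨hu'.1, Submodule.map_mono (hY ht) hu'.2⟩
    have e1 := finrank_inf_ker d1 hfu
    have e2 := finrank_inf_ker d2 hfu'
    omega

/-- complete flags over `F_2` with equal relative positions are conjugate under the stabiliser -/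
theorem exists_transport (g : V ≃ₗ[K] V) (F Y : ℕ → Submodule K V)
    (hF : Monotone F) (hF0 : F 0 = ⊥) (hFt : ∃ p, F p = ⊤)
    (hFj : ∀ s, finrank K (F (s+1)) ≤ finrank K (F s) + 1)
    (hY : Monotone Y) (hY0 : Y 0 = ⊥)
    (hYj : ∀ s, finrank K (Y (s+1)) ≤ finrank K (Y s) + 1)
    (hd : ∀ s t, dl g (F s) (Y t) = 0) (t : ℕ) :
    ∃ x : V ≃ₗ[K] V, (∀ s, (F s).map (x : V →ₗ[K] V) = F s) ∧
      ∀ j ≤ t, (Y j).map (g : V →ₗ[K] V) = (Y j).map (x : V →ₗ[K] V) := by
  classical
  induction t with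
  | zero =>
    refine ⟨LinearEquiv.refl K V, ?_, ?_⟩
    · intro s; exact Submodule.map_id _
    · intro j hj
      have : j = 0 := by omega
      subst this
      rw [hY0, Submodule.map_bot, Submodule.map_bot]
  | succ t ih =>
    obtain ⟨x, hx, hxY⟩ := ih
    -- g' = x⁻¹ g
    set g' : V ≃ₗ[K] V := g.trans x.symm with hg'
    have hcomp : ∀ W : Submodule K V, (W.map (g' : V →ₗ[K] V)).map (x : V →ₗ[K] V)
        = W.map (g : V →ₗ[K] V) := by
      intro W
      rw [← Submodule.map_comp]
      congr 1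
      ext v
      simp [hg']
    have hinj : Function.Injective (Submodule.map (x : V →ₗ[K] V)) :=
      Submodule.map_injective_of_injective x.injective
    have hgY : ∀ j ≤ t, (Y j).map (g' : V →ₗ[K] V) = Y j := by
      intro j hj
      apply hinj
      rw [hcomp, hxY j hj]
    have hgd : ∀ s j, finrank K ↥(F s ⊓ (Y j).map (g' : V →ₗ[K] V)) = finrank K ↥(F s ⊓ Y j) := by
      intro s j
      have h1 := finrank_map_equiv x (F s ⊓ (Y j).map (g' : V →ₗ[K] V))
      rw [map_inf_equiv, hx s, hcomp] at h1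
      have h2 := hd s j
      unfold dl at h2
      omega
    by_cases hYY : Y (t+1) = Y t
    · refine ⟨x, hx, ?_⟩
      intro j hj
      rcases Nat.lt_or_ge j (t+1) with h | h
      · exact hxY j (by omega)
      · have : j = t+1 := by omega
        subst this
        rw [hYY]; exact hxY t le_rfl
    · have hYt : Y t ≤ Y (t+1) := hY (Nat.le_succ t)
      have hnl : ¬ Y (t+1) ≤ Y t := fun h => hYY (le_antisymm h hYt)
      have hgt : (Y t).map (g' : V →ₗ[K] V) = Y t := hgY t le_rfl
      have hgt1 : Y t ≤ (Y (t+1)).map (g' : V →ₗ[K] V) := by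
        rw [← hgt]; exact Submodule.map_mono hYt
      have hex : ∃ i, ¬ (Y (t+1) ⊓ F i ≤ Y t) := by
        obtain ⟨p, hp⟩ := hFt
        exact ⟨p, by rw [hp, inf_top_eq]; exact hnl⟩
      have hiff : ∀ i, (Y (t+1) ⊓ F i ≤ Y t ↔ (Y (t+1)).map (g' : V →ₗ[K] V) ⊓ F i ≤ Y t) := by
        intro i
        rw [le_iff_finrank hYt, le_iff_finrank hgt1]
        have a := hgd i (t+1)
        rw [inf_comm (F i), inf_comm (F i)] at a
        rw [a]
      set i := Nat.find hex with hi
      have his := Nat.find_spec hex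
      rw [← hi] at his
      have hmin : ∀ k, k < i → Y (t+1) ⊓ F k ≤ Y t := by
        intro k hk
        exact not_not.mp (Nat.find_min hex hk)
      have his' := (not_congr (hiff i)).mp his
      have hi0 : i ≠ 0 := by
        intro h0
        apply his
        rw [h0, hF0, inf_bot_eq]; exact bot_le
      obtain ⟨k, hk⟩ := Nat.exists_eq_succ_of_ne_zero hi0
      rw [Nat.succ_eq_add_one] at hk
      have hkm : Y (t+1) ⊓ F k ≤ Y t := hmin k (by omega)
      have hkm' := (hiff k).mp hkm
      rw [SetLike.not_le_iff_exists] at his his'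
      obtain ⟨v, hv, hvY⟩ := his
      obtain ⟨v', hv', hvY'⟩ := his'
      have hvk : v ∉ F k := fun h => hvY (hkm ⟨hv.1, h⟩)
      have hvk' : v' ∉ F k := fun h => hvY' (hkm' ⟨hv'.1, h⟩)
      have hFk : F k ≤ F i := hF (by omega)
      have hw : v + v' ∈ F k := by
        refine add_mem_of_finrank_le hFk ?_ hv.2 hv'.2 hvk hvk'
        rw [hk]; exact hFj k
      have hvn : v ∉ F k ⊔ Y t := by
        intro h
        rw [mem_sup] at h
        obtain ⟨a, ha, b, hb, hab⟩ := h
        have ha' : a = v + b := by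
          rw [← hab, add_assoc, vadd_self, add_zero]
        have : a ∈ Y (t+1) ⊓ F k := ⟨by rw [ha']; exact add_mem hv.1 (hYt hb), ha⟩
        have hat := hkm this
        apply hvY
        rw [← hab]; exact add_mem hat hb
      obtain ⟨f, hf1, hfX⟩ := exists_le_ker_of_notMem hvn
      have hf1' : f v = 1 := by
        rcases K_cases (f v) with h | h
        · exact absurd h hf1
        · exact h
      have hfw : f (v + v') = 0 := hfX (mem_sup_left hw)
      set τl : V →ₗ[K] V := LinearMap.id + f.smulRight (v + v') with hτl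
      have hτa : ∀ z, τl z = z + f z • (v + v') := by
        intro z; simp [hτl]
      have hinv : Function.Involutive τl := by
        intro z
        rw [hτa, hτa, map_add, map_smul, hfw, smul_zero, add_zero, add_assoc, vadd_self, add_zero]
      set τ : V ≃ₗ[K] V := LinearEquiv.ofInvolutive τl hinv with hτ
      have hτz : ∀ z, τ z = z + f z • (v + v') := by
        intro z
        rw [← hτa]; rfl
      have hτle : ∀ W : Submodule K V, (∀ z ∈ W, τ z ∈ W) → W.map (τ : V →ₗ[K] V) = W := by
        intro W hW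
        apply eq_of_le_of_finrank_le
        · rintro _ ⟨z, hz, rfl⟩; exact hW z hz
        · rw [finrank_map_equiv]
      have hτF : ∀ s, (F s).map (τ : V →ₗ[K] V) = F s := by
        intro s
        apply hτle
        intro z hz
        rw [hτz]
        rcases Nat.lt_or_ge s i with h | h
        · have : f z = 0 := hfX (mem_sup_left (hF (by omega : s ≤ k) hz))
          rw [this, zero_smul, add_zero]; exact hz
        · exact add_mem hz (smul_mem _ _ (hF (by omega : k ≤ s) hw))
      have hτfix : ∀ z ∈ Y t, τ z = z := by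
        intro z hz
        have : f z = 0 := hfX (mem_sup_right hz)
        rw [hτz, this, zero_smul, add_zero]
      have hτY : ∀ j ≤ t, (Y j).map (τ : V →ₗ[K] V) = Y j := by
        intro j hj
        apply hτle
        intro z hz
        rw [hτfix z (hY hj hz)]; exact hz
      have hτv : τ v = v' := by
        rw [hτz, hf1', one_smul, ← add_assoc, vadd_self, zero_add]
      have hτ1 : (Y (t+1)).map (τ : V →ₗ[K] V) = (Y (t+1)).map (g' : V →ₗ[K] V) := by
        apply eq_of_le_of_finrank_le
        · rintro _ ⟨z, hz, rfl⟩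
          show τ z ∈ _
          by_cases hzt : z ∈ Y t
          · rw [hτfix z hzt]; exact hgt1 hzt
          · have h2 := add_mem_of_finrank_le hYt (hYj t) hz hv.1 hzt hvY
            have h3 : z = (z + v) + v := by rw [add_assoc, vadd_self, add_zero]
            rw [h3, map_add, hτfix _ h2, hτv]
            exact add_mem (hgt1 h2) hv'.1
        · rw [finrank_map_equiv, finrank_map_equiv]
      refine ⟨τ.trans x, ?_, ?_⟩
      · intro s
        have : ((τ.trans x : V ≃ₗ[K] V) : V →ₗ[K] V) = (x : V →ₗ[K] V) ∘ₗ (τ : V →ₗ[K] V) := rfl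
        rw [this, Submodule.map_comp, hτF, hx]
      · intro j hj
        have : ((τ.trans x : V ≃ₗ[K] V) : V →ₗ[K] V) = (x : V →ₗ[K] V) ∘ₗ (τ : V →ₗ[K] V) := rfl
        rw [this, Submodule.map_comp]
        rcases Nat.lt_or_ge j (t+1) with h | h
        · rw [hτY j (by omega)]; exact hxY j (by omega)
        · have : j = t+1 := by omega
          subst this
          rw [hτ1, hcomp]

end Lin

end Pool.MP_debbfb_al.Ext
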