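import Pool.Agent.Lib_MP_debbfb_al.Ach

set_option autoImplicit false

/-!
The base objects in the regular representation.
-/

namespace Pool.MP_debbfb_al.Ext

open Module Submodule

section dl

variable {V : Type} [AddCommGroup V] [Module K V]

theorem dl_top_right (g : V ≃ₗ[K] V) (X : Submodule K V) : dl g X ⊤ = 0 := by
  unfold dl
  rw [Submodule.map_top, LinearMap.range_eq_top.mpr g.surjective, sub_self]

theorem dl_top_left (g : V ≃ₗ[K] V) (Y : Submodule K V) : dl g ⊤ Y = 0 := by
  unfold dl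
  rw [top_inf_eq, top_inf_eq, finrank_map_equiv, sub_self]

theorem dl_bot_right (g : V ≃ₗ[K] V) (X : Submodule K V) : dl g X ⊥ = 0 := by
  unfold dl
  rw [Submodule.map_bot, sub_self]

theorem dl_ge [Finite V] (g : V ≃ₗ[K] V) (X Y : Submodule K V) : -(finrank K V : ℤ) ≤ dl g X Y := by
  unfold dl
  have := Submodule.finrank_le (X ⊓ Y.map (g : V →ₗ[K] V))
  omega

end dl

variable {G : Type} [Group G]

/-- the left regular representation on functions -/
def reg (G : Type) [Group G] : G →* ((G → K) ≃ₗ[K] (G → K)) where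
  toFun g := LinearEquiv.funCongrLeft K K (Equiv.mulLeft g⁻¹)
  map_one' := by
    ext f x
    simp [LinearMap.funLeft_apply]
  map_mul' a b := by
    ext f x
    simp [LinearMap.funLeft_apply, mul_assoc]

theorem reg_apply (g : G) (f : G → K) (x : G) : reg G g f x = f (g⁻¹ * x) := rfl

theorem reg_injective : Function.Injective (reg G) := by
  classical
  intro a b h
  have h1 := congrArg (fun e : (G → K) ≃ₗ[K] (G → K) => e (Pi.single 1 1) a) h
  simp only [reg_apply] at h1
  rw [inv_mul_cancel, Pi.single_eq_same] at h1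
  by_contra hne
  have : b⁻¹ * a ≠ 1 := by
    intro h2
    exact hne (inv_mul_eq_one.mp h2).symm
  rw [Pi.single_eq_of_ne this] at h1
  exact absurd h1 (by decide)

/-- functions supported in `S` -/
def suppSub (S : Set G) : Submodule K (G → K) where
  carrier := {f | ∀ x, x ∉ S → f x = 0}
  add_mem' := by
    intro f h hf hh x hx
    rw [Pi.add_apply, hf x hx, hh x hx, add_zero]
  zero_mem' := by intro x _; rfl
  smul_mem' := by
    intro c f hf x hx
    rw [Pi.smul_apply, hf x hx, smul_zero]

theorem mem_suppSub {S : Set G} {f : G → K} : f ∈ suppSub S ↔ ∀ x, x ∉ S → f x = 0 := Iff.rfl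

theorem stable_suppSub (A : Subgroup G) (S : Set G) (h : ∀ a ∈ A, ∀ x ∈ S, a * x ∈ S) :
    Stable (reg G) A (suppSub S) := by
  intro a ha f hf x hx
  rw [reg_apply]
  apply hf
  intro h2
  apply hx
  have := h a ha _ h2
  simpa using this

open Classical in
/-- indicator function of a subgroup -/
noncomputable def ind (B : Subgroup G) : G → K := fun x => if x ∈ B then 1 else 0

theorem ind_fix (B : Subgroup G) {b : G} (hb : b ∈ B) : reg G b (ind B) = ind B := by
  classical
  funext x
  rw [reg_apply]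
  unfold ind
  have : b⁻¹ * x ∈ B ↔ x ∈ B := by
    constructor
    · intro h
      have := mul_mem hb h
      simpa using this
    · intro h
      exact mul_mem (inv_mem hb) h
  simp [this]

theorem ind_ne_zero (B : Subgroup G) : ind B ≠ 0 := by
  classical
  intro h
  have := congrFun h 1
  simp [ind, one_mem] at this

/-- the set `AB` -/
def AB (A B : Subgroup G) : Set G := {x | ∃ a ∈ A, ∃ b ∈ B, a * b = x}

theorem AB_left (A B : Subgroup G) : ∀ a ∈ A, ∀ x ∈ AB A B, a * x ∈ AB A B := by
  rintro a ha _ ⟨a', ha', b, hb, rfl⟩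
  exact ⟨a * a', mul_mem ha ha', b, hb, by group⟩

theorem AB_left' (A B : Subgroup G) : ∀ a ∈ A, ∀ x ∈ (AB A B)ᶜ, a * x ∈ (AB A B)ᶜ := by
  intro a ha x hx h
  apply hx
  have := AB_left A B a⁻¹ (inv_mem ha) _ h
  simpa using this

variable [Finite G]

/-- first base object -/
theorem baseL (A B : Subgroup G) (hA : IsPGroup 2 A) (hB : IsPGroup 2 B) (g : G)
    (hg : g ∉ AB A B) (b c : ℕ) (hb : finrank K (G → K) ≤ b) (hc : finrank K (G → K) ≤ c) :
    ∃ δ : ℕ → ℕ → ℤ, Ach A B g δ ∧ (∀ s t, -(finrank K (G → K) : ℤ) ≤ δ s t) ∧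
      (∀ s t, t ≤ c → 0 ≤ δ s t) ∧
      (∀ s t, finrank K (G → K) ≤ s → s ≤ b → 1 ≤ t → t ≤ c → 1 ≤ δ s t) ∧
      (∀ s t, c + finrank K (G → K) ≤ t → δ s t = 0) ∧
      (∀ s t, b + finrank K (G → K) ≤ s → δ s t = 0) := by
  classical
  have hN : 0 < finrank K (G → K) := finrank_pos
  set X : Submodule K (G → K) := suppSub (AB A B) with hX
  have hXs : Stable (reg G) A X := stable_suppSub A _ (AB_left A B)
  set v : G → K := ind B with hv
  set L : Submodule K (G → K) := span K {v} with hL
  have hvL : v ∈ L := mem_span_singleton_self v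
  have hLs : Stable (reg G) B L := by
    intro x hx w hw
    rw [hL, mem_span_singleton] at hw
    obtain ⟨e, rfl⟩ := hw
    rw [map_smul, hv, ind_fix B hx]
    exact smul_mem _ _ hvL
  have hvX : v ∈ X := by
    intro x hx
    have : x ∉ B := fun h => hx ⟨1, one_mem _, x, h, one_mul x⟩
    simp [hv, ind, this]
  have hgvX : reg G g v ∉ X := by
    intro h
    have := h g hg
    rw [reg_apply, inv_mul_cancel] at this
    simp [hv, ind, one_mem] at this
  have hf1 : finrank K L = 1 := finrank_span_singleton (ind_ne_zero B)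
  have hF := Fil_Filt (reg G) A X 0 b hA hXs (by omega) hN
  have hY := Fil_Filt (reg G) B L 0 c hB hLs (by omega) hN
  have hYt : ∀ t, 1 ≤ t → t ≤ c → Fil (reg G) B L 0 c t = L := by
    intro t h1 h2
    rw [Fil_le (reg G) B L 0 c h2, inf_eq_left, Nat.sub_zero, hL, span_singleton_le_iff_mem]
    have h3 := iter_mono (stable_bot (reg G) B) h1
    apply h3
    show v ∈ T (reg G) B ⊥
    intro x hx
    rw [hv, ind_fix B hx, sub_self]; exact zero_mem _
  -- intersection with g L
  have hgL : ∀ W : Submodule K (G → K), reg G g v ∉ W →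
      W ⊓ L.map (reg G g : (G → K) →ₗ[K] (G → K)) = ⊥ := by
    intro W hW
    rw [eq_bot_iff]
    rintro w ⟨hw, ⟨z, hz, rfl⟩⟩
    rw [SetLike.mem_coe, hL, mem_span_singleton] at hz
    obtain ⟨e, rfl⟩ := hz
    rcases K_cases e with h | h
    · subst h
      rw [zero_smul, map_zero]; exact zero_mem _
    · subst h
      exfalso; apply hW
      rw [one_smul] at hw
      exact hw
  have hvW : ∀ W : Submodule K (G → K), v ∈ W → W ⊓ L = L := by
    intro W hW
    rw [inf_eq_right, hL, span_singleton_le_iff_mem]; exact hW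
  refine ⟨fun s t => dl (reg G g) (Fil (reg G) A X 0 b s) (Fil (reg G) B L 0 c t),
    ⟨G → K, inferInstance, inferInstance, inferInstance, reg G, _, _, reg_injective, hF, hY,
      fun _ _ => rfl⟩, fun s t => dl_ge _ _ _, ?_, ?_, ?_, ?_⟩
  · intro s t ht
    rcases Nat.eq_zero_or_pos t with h0 | h0
    · subst h0
      show 0 ≤ dl _ _ (Fil (reg G) B L 0 c 0)
      rw [hY.zero, dl_bot_right]
    · show 0 ≤ dl _ _ (Fil (reg G) B L 0 c t)
      rw [hYt t h0 ht]
      unfold dl
      by_cases hvF : v ∈ Fil (reg G) A X 0 b s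
      · rw [hvW _ hvF, hf1]
        have h1 := finrank_mono (inf_le_right :
          Fil (reg G) A X 0 b s ⊓ L.map (reg G g : (G → K) →ₗ[K] (G → K)) ≤
          L.map (reg G g : (G → K) →ₗ[K] (G → K)))
        rw [finrank_map_equiv, hf1] at h1
        omega
      · have hsb : s ≤ b := by
          by_contra h
          exact hvF (X_le_Fil (reg G) A X 0 b hXs (by omega) hvX)
        have h2 : reg G g v ∉ Fil (reg G) A X 0 b s := fun h =>
          hgvX (Fil_le_X (reg G) A X 0 b hsb h)
        rw [hgL _ h2, finrank_bot]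
        omega
  · intro s t h1 h2 h3 h4
    show 1 ≤ dl _ (Fil (reg G) A X 0 b s) (Fil (reg G) B L 0 c t)
    rw [hYt t h3 h4, Fil_mid (reg G) A X 0 b hA (by omega) h2]
    unfold dl
    rw [hvW _ hvX, hf1, hgL _ hgvX, finrank_bot]
    norm_num
  · intro s t ht
    show dl _ _ (Fil (reg G) B L 0 c t) = 0
    rw [Fil_top (reg G) B L 0 c hB hLs ht hN, dl_top_right]
  · intro s t hs
    show dl _ (Fil (reg G) A X 0 b s) _ = 0
    rw [Fil_top (reg G) A X 0 b hA hXs hs hN, dl_top_left]

open Classical in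
/-- sum over the subgroup `B` -/
noncomputable def sumB [Fintype G] (B : Subgroup G) : (G → K) →ₗ[K] K :=
  ∑ x ∈ Finset.univ.filter (fun x => x ∈ B), LinearMap.proj x

theorem sumB_apply [Fintype G] (B : Subgroup G) (f : G → K) [DecidablePred (fun x => x ∈ B)] :
    sumB B f = ∑ x ∈ Finset.univ.filter (fun x => x ∈ B), f x := by
  unfold sumB
  rw [LinearMap.sum_apply]
  apply Finset.sum_congr
  · ext x; simp
  · intro x _; rfl

theorem sumB_inv [Fintype G] (B : Subgroup G) {b : G} (hb : b ∈ B) (f : G → K) :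
    sumB B (reg G b f) = sumB B f := by
  classical
  rw [sumB_apply, sumB_apply]
  refine Finset.sum_bij (fun x _ => b⁻¹ * x) ?_ ?_ ?_ ?_
  · intro x hx
    rw [Finset.mem_filter] at hx ⊢
    exact ⟨Finset.mem_univ _, mul_mem (inv_mem hb) hx.2⟩
  · intro x _ y _ h
    exact mul_left_cancel h
  · intro y hy
    rw [Finset.mem_filter] at hy
    refine ⟨b * y, ?_, by group⟩
    rw [Finset.mem_filter]
    exact ⟨Finset.mem_univ _, mul_mem hb hy.2⟩
  · intro x _
    rw [reg_apply]

/-- second base object -/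
theorem baseR (A B : Subgroup G) (hA : IsPGroup 2 A) (hB : IsPGroup 2 B) (g : G)
    (hg : g ∉ AB A B) (b c d : ℕ) (hb : finrank K (G → K) ≤ b)
    (hc : c + finrank K (G → K) ≤ d) :
    ∃ δ : ℕ → ℕ → ℤ, Ach A B g δ ∧ (∀ s t, -(finrank K (G → K) : ℤ) ≤ δ s t) ∧
      (∀ s t, t ≤ c → δ s t = 0) ∧
      (∀ s t, c + finrank K (G → K) ≤ t → 0 ≤ δ s t) ∧
      (∀ s t, finrank K (G → K) ≤ s → s ≤ b → c + finrank K (G → K) ≤ t → t ≤ d → 1 ≤ δ s t) ∧
      (∀ s t, d < t → δ s t = 0) ∧
      (∀ s t, b + finrank K (G → K) ≤ s → δ s t = 0) := by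
  classical
  haveI := Fintype.ofFinite G
  have hN : 0 < finrank K (G → K) := finrank_pos
  set X : Submodule K (G → K) := suppSub (AB A B)ᶜ with hX
  have hXs : Stable (reg G) A X := stable_suppSub A _ (AB_left' A B)
  set f : (G → K) →ₗ[K] K := sumB B with hf
  set H : Submodule K (G → K) := LinearMap.ker f with hH
  have hHs : Stable (reg G) B H := by
    intro x hx w hw
    rw [hH, LinearMap.mem_ker] at hw ⊢
    rw [hf, sumB_inv B hx]; exact hw
  have hTH : T (reg G) B H = ⊤ := by
    rw [eq_top_iff]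
    intro w _ x hx
    rw [hH, LinearMap.mem_ker, map_sub, hf, sumB_inv B hx, sub_self]
  have hXH : X ≤ H := by
    intro w hw
    rw [hH, LinearMap.mem_ker, hf, sumB_apply]
    apply Finset.sum_eq_zero
    intro x hx
    rw [Finset.mem_filter] at hx
    apply hw
    intro h
    exact h ⟨1, one_mem _, x, hx.2, one_mul x⟩
  set u : G → K := Pi.single g 1 with hu
  have huX : u ∈ X := by
    intro x hx
    have hxg : x ≠ g := by
      rintro rfl
      exact hx hg
    rw [hu, Pi.single_eq_of_ne hxg]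
  set f' : (G → K) →ₗ[K] K := f ∘ₗ ((reg G g⁻¹ : (G → K) ≃ₗ[K] (G → K)) : (G → K) →ₗ[K] (G → K))
    with hf'
  have hgH : H.map (reg G g : (G → K) →ₗ[K] (G → K)) = LinearMap.ker f' := by
    ext w
    constructor
    · rintro ⟨z, hz, rfl⟩
      rw [LinearMap.mem_ker, hf']
      show f (reg G g⁻¹ (reg G g z)) = 0
      have : reg G g⁻¹ (reg G g z) = z := by
        funext x; rw [reg_apply, reg_apply]; congr 1; group
      rw [this]; exact hz
    · intro hw
      refine ⟨reg G g⁻¹ w, ?_, ?_⟩
      · exact hw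
      · funext x
        show reg G g (reg G g⁻¹ w) x = w x
        rw [reg_apply, reg_apply]; congr 1; group
  have hfu : f' u ≠ 0 := by
    rw [hf']
    show f (reg G g⁻¹ u) ≠ 0
    have : reg G g⁻¹ u = Pi.single 1 1 := by
      funext x
      rw [reg_apply, hu, inv_inv]
      by_cases hx : x = 1
      · subst hx; rw [mul_one, Pi.single_eq_same, Pi.single_eq_same]
      · rw [Pi.single_eq_of_ne hx, Pi.single_eq_of_ne]
        intro h; apply hx
        have := mul_left_cancel (a := g) (b := x) (c := 1) (by rw [h, mul_one])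
        exact this
    rw [this, hf, sumB_apply]
    rw [Finset.sum_eq_single 1]
    · rw [Pi.single_eq_same]; exact one_ne_zero
    · intro x _ hx; rw [Pi.single_eq_of_ne hx]
    · intro h
      exfalso; apply h
      rw [Finset.mem_filter]; exact ⟨Finset.mem_univ _, one_mem _⟩
  have hF := Fil_Filt (reg G) A X 0 b hA hXs (by omega) hN
  have hY := Fil_Filt (reg G) B H c d hB hHs hc hN
  have hcd : c ≤ d := by omega
  have hYtop : ∀ t, d < t → Fil (reg G) B H c d t = ⊤ := by
    intro t ht
    rw [Fil_gt (reg G) B H c d ht]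
    have h3 := iter_mono hHs (show 1 ≤ t - d by omega)
    rw [eq_top_iff, ← hTH]
    exact h3
  -- dimension facts
  have hfin : ∀ (W : Submodule K (G → K)) (φ : (G → K) →ₗ[K] K),
      finrank K W ≤ finrank K ↥(W ⊓ LinearMap.ker φ) + 1 := by
    intro W φ
    by_cases h : W ≤ LinearMap.ker φ
    · rw [inf_eq_left.mpr h]; omega
    · rw [SetLike.not_le_iff_exists] at h
      obtain ⟨w, hw, hwφ⟩ := h
      have := finrank_inf_ker hw hwφ
      omega
  refine ⟨fun s t => dl (reg G g) (Fil (reg G) A X 0 b s) (Fil (reg G) B H c d t),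
    ⟨G → K, inferInstance, inferInstance, inferInstance, reg G, _, _, reg_injective, hF, hY,
      fun _ _ => rfl⟩, fun s t => dl_ge _ _ _, ?_, ?_, ?_, ?_, ?_⟩
  · intro s t ht
    show dl _ _ (Fil (reg G) B H c d t) = 0
    rw [Fil_bot (reg G) B H c d hcd ht, dl_bot_right]
  · intro s t ht
    show 0 ≤ dl _ _ (Fil (reg G) B H c d t)
    rcases Nat.lt_or_ge d t with h0 | h0
    · rw [hYtop t h0, dl_top_right]
    · rw [Fil_mid (reg G) B H c d hB ht h0]
      unfold dl
      rw [hgH]
      by_cases hsb : s ≤ b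
      · have h1 : Fil (reg G) A X 0 b s ≤ H := (Fil_le_X (reg G) A X 0 b hsb).trans hXH
        rw [inf_eq_left.mpr h1]
        have h2 := finrank_mono (inf_le_left :
          Fil (reg G) A X 0 b s ⊓ LinearMap.ker f' ≤ Fil (reg G) A X 0 b s)
        omega
      · have h1 : u ∈ Fil (reg G) A X 0 b s := X_le_Fil (reg G) A X 0 b hXs (by omega) huX
        have h2 := finrank_inf_ker h1 hfu
        have h3 := hfin (Fil (reg G) A X 0 b s) f
        rw [← hH] at h3
        omega
  · intro s t h1 h2 h3 h4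
    show 1 ≤ dl _ (Fil (reg G) A X 0 b s) (Fil (reg G) B H c d t)
    rw [Fil_mid (reg G) B H c d hB h3 h4, Fil_mid (reg G) A X 0 b hA (by omega) h2]
    unfold dl
    rw [hgH, inf_eq_left.mpr hXH]
    have h2 := finrank_inf_ker huX hfu
    omega
  · intro s t ht
    show dl _ _ (Fil (reg G) B H c d t) = 0
    rw [hYtop t ht, dl_top_right]
  · intro s t hs
    show dl _ (Fil (reg G) A X 0 b s) _ = 0
    rw [Fil_top (reg G) A X 0 b hA hXs hs hN, dl_top_left]

end Pool.MP_debbfb_al.Ext
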